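import Mathlib
set_option autoImplicit false

namespace Pool.Agent.Helper501.EP

open Matrix

/-- letters of the four letter alphabet: (type of the block, paperfolding letter). -/
abbrev T := Bool × Bool

/-- words in the two letters `false` (= x) and `true` (= y). -/
abbrev W := FreeMonoid Bool

/-- the free algebra `ℚ⟨x,y⟩`. -/
abbrev FA := MonoidAlgebra ℚ W

/-- iterates of the substitution (τ,c) ↦ (false,τ)(true,c). -/
def om : ℕ → T → List T
  | 0, t => [t]
  | i + 1, t => om i (false, t.1) ++ om i (true, t.2)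

/-- the block words in the letters x, y -/
def bw : ℕ → T → List Bool
  | 0, t => [t.2]
  | k + 1, t => bw k (false, t.1) ++ bw k (true, t.2)

/-- the `j`-th chunk of length `l` of a list -/
def chunk {α : Type} (l : ℕ) (w : List α) (j : ℕ) : List α := (w.drop (j * l)).take l

/-- permute the first `N` chunks (of length `l`) of `w`. -/
def pw (N l : ℕ) (w : List T) (π : Equiv.Perm (Fin N)) : List T :=
  (List.ofFn (fun j : Fin N => chunk l w (π j))).flatten ++ w.drop (N * l)

def Nn (s : ℕ) : ℕ := s * s + 1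
def ll (s : ℕ) : ℕ := 2 * (s * s + 1) + 1
def ii (s : ℕ) : ℕ := Nn s * ll s + 1

/-- levels -/
def mm : ℕ → ℕ
  | 0 => 1
  | s + 1 => mm s + ii s

/-- degrees -/
def nn (s : ℕ) : ℕ := 2 ^ mm s

/-- a word as an element of the free algebra -/
noncomputable def wrd (w : List Bool) : FA := MonoidAlgebra.single (FreeMonoid.ofList w) 1

/-- the polynomials phi_s(t) -/
noncomputable def phi : ℕ → T → FA
  | 0, t => wrd [t.1, t.2]
  | s + 1, t => ∑ π : Equiv.Perm (Fin (Nn s)),
      ((Equiv.Perm.sign π : ℤ) : ℚ) • ((pw (Nn s) (ll s) (om (ii s) t) π).map (phi s)).prod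

/-- coefficient of a word given as a list -/
noncomputable def cf (φ : FA) (w : List Bool) : ℚ := φ.coeff (FreeMonoid.ofList w)

/-- homogeneous of degree n -/
def Hom (n : ℕ) (φ : FA) : Prop := ∀ w : List Bool, cf φ w ≠ 0 → w.length = n

/-- the pairing: sum over all words u of r(u) φ(p u q) -/
noncomputable def pr (φ : FA) (p q : List Bool) (r : FA) : ℚ :=
  r.coeff.sum fun u c => c * cf φ (p ++ FreeMonoid.toList u ++ q)

/-- evaluation of words at matrices -/
noncomputable def Mw {R n : Type} [CommRing R] [Fintype n] [DecidableEq n]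
    (M : Bool → Matrix n n R) (w : List Bool) : Matrix n n R := (w.map M).prod

/-- evaluation of noncommutative polynomials at matrices -/
noncomputable def ev {R n : Type} [CommRing R] [Algebra ℚ R] [Fintype n] [DecidableEq n]
    (M : Bool → Matrix n n R) : FA →ₐ[ℚ] Matrix n n R :=
  MonoidAlgebra.lift ℚ (Matrix n n R) W (FreeMonoid.lift M)

/-- the pencil  Σ_a M_a x_a. -/
def pen {R S n : Type} [CommRing R] [Ring S] (ρ : R →+* S) (x : Bool → S)
    (M : Bool → Matrix n n R) : Matrix n n S :=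
  fun i j => ρ (M false i j) * x false + ρ (M true i j) * x true

/-- elements of degree between 1 and d+1 -/
def VV {R S : Type} [CommRing R] [Ring S] (ρ : R →+* S) (x : Bool → S) : ℕ → S → Prop
  | 0, z => ∃ c : Bool → R, z = ρ (c false) * x false + ρ (c true) * x true
  | d + 1, z => ∃ c : Bool → R, ∃ g : Bool → S, (∀ a, VV ρ x d (g a)) ∧
      z = ρ (c false) * x false + ρ (c true) * x true + (g false * x false + g true * x true)

/-- the two paperfolding products (A_n, B_n) -/
def PF {S : Type} [Ring S] (x y : S) : ℕ → S × S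
  | 0 => (1, 1)
  | n + 1 => ((PF x y n).1 * x * (PF x y n).2, (PF x y n).1 * y * (PF x y n).2)

/-- E12 -/
def e12 {S : Type} [Ring S] : Matrix (Fin 3) (Fin 3) S := !![0, 1, 0; 0, 0, 0; 0, 0, 0]
/-- E23 -/
def e23 {S : Type} [Ring S] : Matrix (Fin 3) (Fin 3) S := !![0, 0, 0; 0, 0, 1; 0, 0, 0]
/-- g = (1+E23)(1+E12) -/
def gM {S : Type} [Ring S] : Matrix (Fin 3) (Fin 3) S := !![1, 1, 0; 0, 1, 1; 0, 0, 1]
/-- the inverse of g -/
def gI {S : Type} [Ring S] : Matrix (Fin 3) (Fin 3) S := !![1, -1, 1; 0, 1, -1; 0, 0, 1]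
/-- the matrix (column (0, x w, (x+y) w)) times the row (1,0,0) -/
def cwr {S : Type} [Ring S] (x y w : S) : Matrix (Fin 3) (Fin 3) S :=
  !![0, 0, 0; x * w, 0, 0; (x + y) * w, 0, 0]

/-- the commutator map x ↦ [x,g] = x⁻¹ g⁻¹ x g -/
def cm {G : Type} [Group G] (g x : G) : G := x⁻¹ * g⁻¹ * x * g

/-- the normalised pair (X_n, Y_n) -/
def XY {G : Type} [Group G] (g h : G) : ℕ → G × G
  | 0 => (h, h⁻¹)
  | n + 1 => ((XY g h n).2 * g⁻¹ * (XY g h n).1, (XY g h n).2 * g * (XY g h n).1)

/-- P has entries of degree at most d, and T is its coefficient matrix of degree d. -/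
def TopM {S : Type} [Ring S] (P : Matrix (Fin 3) (Fin 3) (Polynomial S)) (d : ℕ)
    (A : Matrix (Fin 3) (Fin 3) S) : Prop :=
  ∀ i j, (P i j).natDegree ≤ d ∧ (P i j).coeff d = A i j

/-- the ideal-like set: on and below the diagonal the entries lie in the augmentation ideal -/
def F1 {S : Type} [Ring S] (ε : S →+* ℚ) (t : Matrix (Fin 3) (Fin 3) S) : Prop :=
  ∀ i j : Fin 3, j ≤ i → ε (t i j) = 0

/-- weight at least w (δ: the ring homomorphism x ↦ τ^3 x, y ↦ τ^3 y; E_ij has weight j-i). -/
def wt {S : Type} [Ring S] (δ : S →+* Polynomial S) (w : ℕ) (t : Matrix (Fin 3) (Fin 3) S) : Prop :=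
  ∀ (i j : Fin 3) (k : ℕ), k + (j : ℕ) < w + (i : ℕ) → (δ (t i j)).coeff k = 0

/-- Engel element -/
def IsEngel {G : Type} [Group G] (g : G) : Prop := ∀ h : G, ∃ k : ℕ, (cm g)^[k] h = 1

/-- infinite paperfolding word over the four letters: Linf (2j) = (false, (Linf j).1),
Linf (2j+1) = (true, (Linf j).2), Linf 0 = (false,false). -/
def PFS (L : ℕ → T) : Prop :=
  ∀ j, L (2 * j) = (false, (L j).1) ∧ L (2 * j + 1) = (true, (L j).2)

end Pool.Agent.Helper501.EP
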