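import Pool.Agent.Helper501.EP.Defs

set_option autoImplicit false

namespace Pool.Agent.Helper501.EP
open Matrix


theorem bw_add (m i : ℕ) (t : T) : bw (m + i) t = ((om i t).map (bw m)).flatten := by
  induction i generalizing t with
  | zero => simp [om]
  | succ i ih =>
    show bw (m + i) (false, t.1) ++ bw (m + i) (true, t.2) =
      ((om i (false, t.1) ++ om i (true, t.2)).map (bw m)).flatten
    rw [ih, ih, List.map_append, List.flatten_append]

end Pool.Agent.Helper501.EP
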