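import Pool.Agent.Helper501.EP.Defs

set_option autoImplicit false

namespace Pool.Agent.Helper501.EP
open Matrix


theorem bw_length (k : ℕ) (t : T) : (bw k t).length = 2 ^ k := by
  induction k generalizing t with
  | zero => rfl
  | succ k ih =>
    show (bw k (false, t.1) ++ bw k (true, t.2)).length = 2 ^ (k + 1)
    rw [List.length_append, ih, ih, pow_succ]
    ring

end Pool.Agent.Helper501.EP
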