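import Pool.Agent.Helper501.EP.Defs

set_option autoImplicit false

namespace Pool.Agent.Helper501.EP
open Matrix


theorem cf_mul_hom (n : ℕ) (φ ψ : FA) (h : Hom n φ) (w : List Bool) :
    cf (φ * ψ) w = cf φ (w.take n) * cf ψ (w.drop n) := by
  classical
  have hlen : ∀ m ∈ φ.coeff.support, (FreeMonoid.toList m).length = n := by
    intro m hm
    apply h
    unfold cf
    rw [FreeMonoid.ofList_toList]
    exact Finsupp.mem_support_iff.1 hm
  have hsplit : ∀ m₁ ∈ φ.coeff.support, ∀ m₂ : W, m₁ * m₂ = FreeMonoid.ofList w →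
      m₁ = FreeMonoid.ofList (w.take n) ∧ m₂ = FreeMonoid.ofList (w.drop n) := by
    intro m₁ h1 m₂ h2
    have h3 : w = FreeMonoid.toList m₁ ++ FreeMonoid.toList m₂ := by
      have := congrArg FreeMonoid.toList h2
      rw [FreeMonoid.toList_mul, FreeMonoid.toList_ofList] at this
      exact this.symm
    have h4 := hlen m₁ h1
    constructor
    · rw [h3, List.take_left' h4, FreeMonoid.ofList_toList]
    · rw [h3, List.drop_left' h4, FreeMonoid.ofList_toList]
  unfold cf
  rw [MonoidAlgebra.coeff_mul, Finsupp.sum, Finset.sum_eq_single (FreeMonoid.ofList (w.take n))]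
  · by_cases hz : φ.coeff (FreeMonoid.ofList (w.take n)) = 0
    · rw [hz]
      simp
    · have hmem : FreeMonoid.ofList (w.take n) ∈ φ.coeff.support := Finsupp.mem_support_iff.2 hz
      rw [Finsupp.sum, Finset.sum_eq_single (FreeMonoid.ofList (w.drop n))]
      · rw [if_pos]
        rw [← FreeMonoid.ofList_append, List.take_append_drop]
      · intro b _ hb
        rw [if_neg]
        intro hc
        exact hb (hsplit _ hmem b hc).2
      · intro hb
        rw [Finsupp.notMem_support_iff.1 hb]
        simp
  · intro b hb hne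
    rw [Finsupp.sum]
    apply Finset.sum_eq_zero
    intro c _
    rw [if_neg]
    intro hc
    exact hne (hsplit b hb c hc).1
  · intro hb
    rw [Finsupp.notMem_support_iff.1 hb]
    simp

end Pool.Agent.Helper501.EP
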