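import Pool.Agent.Helper501.EP.Defs
import Pool.Agent.Helper501.EP.P_cf_mul_hom

set_option autoImplicit false

namespace Pool.Agent.Helper501.EP
open Matrix


theorem cf_prod_flatten_nil : cf 1 [] = 1 := by
  unfold cf
  rw [MonoidAlgebra.one_def]
  simp

theorem cf_prod_flatten (n : ℕ) (F : T → FA) (hF : ∀ t, Hom n (F t)) (G : T → List Bool)
    (hG : ∀ t, (G t).length = n) (hFG : ∀ t t', cf (F t) (G t') = if t = t' then 1 else 0)
    (κ κ' : List T) (hl : κ.length = κ'.length) :
    cf (κ.map F).prod (κ'.map G).flatten = if κ = κ' then 1 else 0 := by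
  induction κ generalizing κ' with
  | nil =>
    cases κ' with
    | nil => simpa using cf_prod_flatten_nil
    | cons b κ' => simp at hl
  | cons a κ ih =>
    cases κ' with
    | nil => simp at hl
    | cons b κ' =>
      rw [List.map_cons, List.map_cons, List.prod_cons, List.flatten_cons,
        cf_mul_hom n _ _ (hF a), List.take_left' (hG b), List.drop_left' (hG b), hFG,
        ih κ' (by simpa using hl)]
      by_cases h1 : a = b <;> by_cases h2 : κ = κ' <;> simp [h1, h2]

end Pool.Agent.Helper501.EP
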