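import Pool.Agent.Helper501.EP.Defs

set_option autoImplicit false

namespace Pool.Agent.Helper501.EP
open Matrix


theorem om_length (i : ℕ) (t : T) : (om i t).length = 2 ^ i := by
  induction i generalizing t with
  | zero => simp [om]
  | succ i ih => simp [om, ih, pow_succ]; ring

end Pool.Agent.Helper501.EP
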