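import Pool.Agent.Helper501.EP.Defs
import Pool.Agent.Helper501.EP.P_cf_mul_hom

set_option autoImplicit false

namespace Pool.Agent.Helper501.EP
open Matrix


theorem hom_mul (m n : ℕ) (φ ψ : FA) (h : Hom m φ) (h' : Hom n ψ) : Hom (m + n) (φ * ψ) := by
  intro w hw
  rw [cf_mul_hom m φ ψ h w] at hw
  have h1 := h _ (left_ne_zero_of_mul hw)
  have h2 := h' _ (right_ne_zero_of_mul hw)
  rw [List.length_take] at h1
  rw [List.length_drop] at h2
  omega

end Pool.Agent.Helper501.EP
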