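import Pool.Agent.Helper501.EP.Defs
import Pool.Agent.Helper501.EP.P_hom_mul

set_option autoImplicit false

namespace Pool.Agent.Helper501.EP
open Matrix


theorem hom_prod (n : ℕ) (F : T → FA) (hF : ∀ t, Hom n (F t)) (κ : List T) :
    Hom (n * κ.length) (κ.map F).prod := by
  induction κ with
  | nil =>
    intro w hw
    unfold cf at hw
    have h1 : (((List.nil : List T).map F).prod) = (MonoidAlgebra.single 1 1 : FA) := by
      rw [List.map_nil, List.prod_nil]
      exact MonoidAlgebra.one_def
    rw [h1, MonoidAlgebra.coeff_single] at hw
    have h2 : (1 : W) = FreeMonoid.ofList w := by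
      by_contra hc
      exact hw (Finsupp.single_eq_of_ne (Ne.symm hc))
    have h3 : w = [] := by
      have := congrArg FreeMonoid.toList h2
      rw [FreeMonoid.toList_ofList, FreeMonoid.toList_one] at this
      exact this.symm
    rw [h3]
    simp
  | cons a κ ih =>
    rw [List.map_cons, List.prod_cons, List.length_cons]
    have := hom_mul n (n * κ.length) (F a) (κ.map F).prod (hF a) ih
    have e : n * (κ.length + 1) = n + n * κ.length := by ring
    rw [e]
    exact this

end Pool.Agent.Helper501.EP
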