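import Pool.Agent.Helper501.EP.Defs

set_option autoImplicit false

namespace Pool.Agent.Helper501.EP
open Matrix


theorem pw_length (N l : ℕ) (w : List T) (h : N * l ≤ w.length) (π : Equiv.Perm (Fin N)) :
    (pw N l w π).length = w.length := by
  unfold pw
  rw [List.length_append, List.length_flatten, List.map_ofFn, List.sum_ofFn, List.length_drop]
  have h1 : ∀ j : Fin N, (List.length ∘ fun j : Fin N => chunk l w (π j)) j = l := by
    intro j
    simp only [Function.comp, chunk, List.length_take, List.length_drop]
    have h2 : ((π j : ℕ) + 1) * l ≤ N * l := Nat.mul_le_mul_right l (π j).2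
    have h3 : ((π j : ℕ) + 1) * l = (π j : ℕ) * l + l := by ring
    omega
  rw [Finset.sum_congr rfl (fun j _ => h1 j)]
  simp only [Finset.sum_const, Finset.card_univ, Fintype.card_fin, smul_eq_mul]
  omega

end Pool.Agent.Helper501.EP
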