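import Pool.Agent.Helper501.EP.Defs
import Pool.Agent.Helper501.EP.P_om_length
import Pool.Agent.Helper501.EP.P_pw_length
import Pool.Agent.Helper501.EP.P_hom_prod

set_option autoImplicit false

namespace Pool.Agent.Helper501.EP
open Matrix


theorem phi_hom (s : ℕ) (t : T) : Hom (nn s) (phi s t) := by
  classical
  induction s generalizing t with
  | zero =>
    intro w hw
    have e : cf (phi 0 t) w =
        (Finsupp.single (FreeMonoid.ofList [t.1, t.2]) (1 : ℚ)) (FreeMonoid.ofList w) := rfl
    rw [e, Finsupp.single_apply] at hw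
    split_ifs at hw with h
    · have := FreeMonoid.ofList.injective h
      subst this
      rfl
    · exact absurd rfl hw
  | succ s ih =>
    intro w hw
    have e : cf (phi (s + 1) t) w = ∑ π : Equiv.Perm (Fin (Nn s)),
        ((Equiv.Perm.sign π : ℤ) : ℚ) *
          cf (((pw (Nn s) (ll s) (om (ii s) t) π).map (phi s)).prod) w := by
      unfold cf
      rw [phi, MonoidAlgebra.coeff_sum, Finsupp.finset_sum_apply]
      rfl
    rw [e] at hw
    obtain ⟨π, -, hπ⟩ := Finset.exists_ne_zero_of_sum_ne_zero hw
    have h1 := right_ne_zero_of_mul hπ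
    have h2 := hom_prod (nn s) (phi s) ih _ w h1
    have h3 : Nn s * ll s ≤ (om (ii s) t).length := by
      rw [om_length]
      have h4 : Nn s * ll s < 2 ^ (Nn s * ll s) := Nat.lt_two_pow_self
      have h5 : 2 ^ (Nn s * ll s) ≤ 2 ^ ii s := Nat.pow_le_pow_right (by norm_num) (by
        unfold ii; omega)
      omega
    rw [h2, pw_length _ _ _ h3, om_length]
    show 2 ^ mm s * 2 ^ ii s = 2 ^ (mm s + ii s)
    rw [pow_add]
end Pool.Agent.Helper501.EP
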