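import Pool.Agent.Helper501.EP.Defs

set_option autoImplicit false

namespace Pool.Agent.Helper501.EP
open Matrix


theorem linf_fst (L : ℕ → T) (hL : PFS L) (n : ℕ) : (L n).1 = decide (n % 2 = 1) := by
  rcases Nat.even_or_odd' n with ⟨j, rfl | rfl⟩
  · rw [(hL j).1]
    have : ¬ (2 * j) % 2 = 1 := by omega
    simp [this]
  · rw [(hL j).2]
    have : (2 * j + 1) % 2 = 1 := by omega
    simp [this]

theorem linf_snd (L : ℕ → T) (hL : PFS L) (u : ℕ) : ∀ (e a : ℕ),
    ∃ t, t < 2 ^ (e + 1) ∧ (L (a + t)).2 ≠ (L (a + 2 ^ (e + 1) * (2 * u + 1) + t)).2 := by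
  intro e
  induction e with
  | zero =>
    intro a
    have key : ∀ j : ℕ, (L (2 * j)).2 ≠ (L (2 * (j + (2 * u + 1)))).2 := by
      intro j
      rw [(hL j).1, (hL (j + (2 * u + 1))).1]
      show (L j).1 ≠ (L (j + (2 * u + 1))).1
      rw [linf_fst L hL, linf_fst L hL]
      intro h
      have := decide_eq_decide.1 h
      omega
    rcases Nat.even_or_odd' a with ⟨j, rfl | rfl⟩
    · refine ⟨0, by norm_num, ?_⟩
      have e1 : 2 * j + 2 ^ (0 + 1) * (2 * u + 1) + 0 = 2 * (j + (2 * u + 1)) := by ring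
      have e2 : 2 * j + 0 = 2 * j := by ring
      rw [e1, e2]
      exact key j
    · refine ⟨1, by norm_num, ?_⟩
      have e1 : 2 * j + 1 + 2 ^ (0 + 1) * (2 * u + 1) + 1 = 2 * (j + 1 + (2 * u + 1)) := by ring
      have e2 : 2 * j + 1 + 1 = 2 * (j + 1) := by ring
      rw [e1, e2]
      exact key (j + 1)
  | succ e ih =>
    intro a
    rcases Nat.even_or_odd' a with ⟨j, rfl | rfl⟩
    · obtain ⟨t, ht, hne⟩ := ih j
      refine ⟨2 * t + 1, by rw [pow_succ]; omega, ?_⟩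
      have e1 : 2 * j + (2 * t + 1) = 2 * (j + t) + 1 := by ring
      have e2 : 2 * j + 2 ^ (e + 1 + 1) * (2 * u + 1) + (2 * t + 1) =
        2 * (j + 2 ^ (e + 1) * (2 * u + 1) + t) + 1 := by ring
      rw [e1, e2, (hL (j + t)).2, (hL (j + 2 ^ (e + 1) * (2 * u + 1) + t)).2]
      exact hne
    · obtain ⟨t, ht, hne⟩ := ih j
      refine ⟨2 * t, by rw [pow_succ]; omega, ?_⟩
      have e1 : 2 * j + 1 + 2 * t = 2 * (j + t) + 1 := by ring
      have e2 : 2 * j + 1 + 2 ^ (e + 1 + 1) * (2 * u + 1) + 2 * t =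
        2 * (j + 2 ^ (e + 1) * (2 * u + 1) + t) + 1 := by ring
      rw [e1, e2, (hL (j + t)).2, (hL (j + 2 ^ (e + 1) * (2 * u + 1) + t)).2]
      exact hne

theorem linf_distinct (L : ℕ → T) (hL : PFS L) (e u a : ℕ) :
    ∃ t, t < 2 ^ e ∧ L (a + t) ≠ L (a + 2 ^ e * (2 * u + 1) + t) := by
  cases e with
  | zero =>
    refine ⟨0, by norm_num, ?_⟩
    intro h
    have h1 := congrArg Prod.fst h
    rw [linf_fst L hL, linf_fst L hL] at h1
    have := decide_eq_decide.1 h1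
    omega
  | succ e =>
    obtain ⟨t, ht, hne⟩ := linf_snd L hL u e a
    exact ⟨t, ht, fun h => hne (congrArg Prod.snd h)⟩

end Pool.Agent.Helper501.EP
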