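import Pool.Agent.Helper501.EP.Defs
import Pool.Agent.Helper501.EP.P_om_length

set_option autoImplicit false

namespace Pool.Agent.Helper501.EP
open Matrix


/-- one step of the substitution on lists -/
def olStep (l : List T) : List T := l.flatMap (fun u => [(false, u.1), (true, u.2)])

theorem olStep_append (l l' : List T) : olStep (l ++ l') = olStep l ++ olStep l' := by
  unfold olStep
  rw [List.flatMap_append]

theorem om_olStep (i : ℕ) (t : T) : om (i + 1) t = olStep (om i t) := by
  induction i generalizing t with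
  | zero => rfl
  | succ i ih =>
    have h1 : om (i + 1 + 1) t = om (i + 1) (false, t.1) ++ om (i + 1) (true, t.2) := rfl
    have h2 : om (i + 1) t = om i (false, t.1) ++ om i (true, t.2) := rfl
    rw [h1, ih, ih, h2, olStep_append]

theorem olStep_get (l : List T) (j : ℕ) :
    (olStep l)[2 * j]? = (l[j]?).map (fun u => (false, u.1)) ∧
    (olStep l)[2 * j + 1]? = (l[j]?).map (fun u => (true, u.2)) := by
  induction l generalizing j with
  | nil => simp [olStep]
  | cons a l ih =>
    have h1 : olStep (a :: l) = (false, a.1) :: (true, a.2) :: olStep l := rfl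
    rw [h1]
    rcases j with _ | j
    · simp
    · have e1 : 2 * (j + 1) = 2 * j + 1 + 1 := by ring
      rw [e1]
      simp only [List.getElem?_cons_succ]
      exact ih j

/-- second components -/
def olC (n : ℕ) : Bool :=
  if n = 0 then false else if n % 2 = 0 then decide ((n / 2) % 2 = 1) else olC (n / 2)
  termination_by n
  decreasing_by omega

theorem olC_even (j : ℕ) : olC (2 * j) = decide (j % 2 = 1) := by
  rw [olC]
  rcases Nat.eq_zero_or_pos j with h | h
  · subst h; simp
  · have h1 : 2 * j ≠ 0 := by omega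
    have h2 : 2 * j % 2 = 0 := by omega
    have h3 : 2 * j / 2 = j := by omega
    rw [if_neg h1, if_pos h2, h3]

theorem olC_odd (j : ℕ) : olC (2 * j + 1) = olC j := by
  rw [olC]
  have h1 : 2 * j + 1 ≠ 0 := by omega
  have h2 : ¬ (2 * j + 1) % 2 = 0 := by omega
  have h3 : (2 * j + 1) / 2 = j := by omega
  rw [if_neg h1, if_neg h2, h3]

theorem om_fst (i j : ℕ) (t : T) (hj : j < 2 ^ (i + 1)) :
    ∃ c, (om (i + 1) t)[j]? = some (decide (j % 2 = 1), c) := by
  rw [om_olStep]
  have hl : (om i t).length = 2 ^ i := om_length i t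
  rcases Nat.even_or_odd' j with ⟨k, rfl | rfl⟩
  · have hk : k < (om i t).length := by rw [hl]; rw [pow_succ] at hj; omega
    refine ⟨((om i t)[k]).1, ?_⟩
    rw [(olStep_get _ k).1, List.getElem?_eq_getElem hk]
    have : 2 * k % 2 = 0 := by omega
    simp [this]
  · have hk : k < (om i t).length := by rw [hl]; rw [pow_succ] at hj; omega
    refine ⟨((om i t)[k]).2, ?_⟩
    rw [(olStep_get _ k).2, List.getElem?_eq_getElem hk]
    have : (2 * k + 1) % 2 = 1 := by omega
    simp [this]

theorem om_linf_aux (i : ℕ) : ∀ (j : ℕ) (t : T), j + 1 < 2 ^ i →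
    (om (i + 1) t)[j]? = some (decide (j % 2 = 1), olC j) := by
  induction i with
  | zero => intro j t hj; simp at hj
  | succ i ih =>
    intro j t hj
    rw [om_olStep]
    rcases Nat.even_or_odd' j with ⟨k, rfl | rfl⟩
    · have hk : k < 2 ^ (i + 1) := by omega
      obtain ⟨c, hc⟩ := om_fst i k t hk
      rw [(olStep_get _ k).1, hc, olC_even]
      have : 2 * k % 2 = 0 := by omega
      simp [this]
    · have hk : k + 1 < 2 ^ i := by rw [pow_succ] at hj; omega
      rw [(olStep_get _ k).2, ih k t hk, olC_odd]
      have : (2 * k + 1) % 2 = 1 := by omega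
      simp [this]

theorem om_linf : ∃ L : ℕ → T, PFS L ∧
    ∀ (i j : ℕ) (t : T), j + 1 < 2 ^ i → (om (i + 1) t)[j]? = some (L j) := by
  refine ⟨fun j => (decide (j % 2 = 1), olC j), fun j => ⟨?_, ?_⟩, fun i j t h =>
    om_linf_aux i j t h⟩
  · have : 2 * j % 2 = 0 := by omega
    simp [this, olC_even]
  · have : (2 * j + 1) % 2 = 1 := by omega
    simp [this, olC_odd]

end Pool.Agent.Helper501.EP
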