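import Pool.Agent.Helper501.EP.Defs
import Pool.Agent.Helper501.EP.P_om_length
import Pool.Agent.Helper501.EP.P_om_linf
import Pool.Agent.Helper501.EP.P_linf_distinct

set_option autoImplicit false

namespace Pool.Agent.Helper501.EP
open Matrix


theorem chunk_distinct_lt (i N l : ℕ) (t : T) (hN : N * l < 2 ^ i) (hodd : Odd l) (hNl : N ≤ l)
    (a b : ℕ) (hb : b < N) (hab : a < b)
    (h : chunk l (om (i + 1) t) a = chunk l (om (i + 1) t) b) : False := by
  obtain ⟨L, hL, hom⟩ := om_linf
  obtain ⟨e, m, hm, he⟩ := Nat.exists_eq_two_pow_mul_odd (n := b - a) (by omega)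
  obtain ⟨u, hu⟩ := hm.mul hodd
  obtain ⟨s, hs, hne⟩ := linf_distinct L hL e u (a * l)
  have hm1 : 1 ≤ m := hm.pos
  have h2e : 2 ^ e ≤ b - a := by
    rw [he]; exact Nat.le_mul_of_pos_right _ hm1
  have hsl : s < l := by omega
  have hbl : a * l + 2 ^ e * (2 * u + 1) = b * l := by
    rw [← hu]
    have hb' : b = a + 2 ^ e * m := by omega
    conv_rhs => rw [hb']
    ring
  rw [hbl] at hne
  have hch : ∀ c, c < N → (chunk l (om (i + 1) t) c)[s]? = some (L (c * l + s)) := by
    intro c hc
    unfold chunk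
    rw [List.getElem?_take, if_pos hsl, List.getElem?_drop]
    apply hom
    have h1 : (c + 1) * l ≤ N * l := Nat.mul_le_mul_right l hc
    have h2 : (c + 1) * l = c * l + l := by ring
    omega
  have h1 := hch a (by omega)
  have h2 := hch b hb
  rw [h, h2] at h1
  exact hne (Option.some.inj h1).symm

theorem chunk_distinct (i N l : ℕ) (t : T) (hN : N * l < 2 ^ i) (hodd : Odd l) (hNl : N ≤ l)
    (a b : ℕ) (ha : a < N) (hb : b < N) (h : chunk l (om (i + 1) t) a = chunk l (om (i + 1) t) b) :
    a = b := by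
  by_contra hne
  rcases Nat.lt_or_gt_of_ne hne with h1 | h1
  · exact chunk_distinct_lt i N l t hN hodd hNl a b hb h1 h
  · exact chunk_distinct_lt i N l t hN hodd hNl b a ha h1 h.symm

end Pool.Agent.Helper501.EP
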