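import Pool.Agent.Helper501.EP.Defs
import Pool.Agent.Helper501.EP.P_om_length

set_option autoImplicit false

namespace Pool.Agent.Helper501.EP
open Matrix


theorem om_tail_a1 (i : ℕ) (t : T) : ((om i t)[2 ^ i - 1]?).map Prod.snd = some t.2 := by
  induction i generalizing t with
  | zero => simp [om]
  | succ i ih =>
    have hp : 0 < 2 ^ i := by positivity
    have h1 : 2 ^ (i + 1) - 1 - (om i (false, t.1)).length = 2 ^ i - 1 := by
      rw [om_length, pow_succ]; omega
    have h2 : (om i (false, t.1)).length ≤ 2 ^ (i + 1) - 1 := by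
      rw [om_length, pow_succ]; omega
    change ((om i (false, t.1) ++ om i (true, t.2))[2 ^ (i + 1) - 1]?).map Prod.snd = _
    rw [List.getElem?_append_right h2, h1]
    exact ih (true, t.2)

theorem om_tail_a2 (i : ℕ) (t : T) : ((om (i + 1) t)[2 ^ i - 1]?).map Prod.snd = some t.1 := by
  have hp : 0 < 2 ^ i := by positivity
  change ((om i (false, t.1) ++ om i (true, t.2))[2 ^ i - 1]?).map Prod.snd = _
  rw [List.getElem?_append_left (by rw [om_length]; omega)]
  exact om_tail_a1 i (false, t.1)

theorem om_tail (i m : ℕ) (t t' : T) (hm : m < 2 ^ i)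
    (h : (om (i + 1) t).drop m = (om (i + 1) t').drop m) : t = t' := by
  have hp : 2 ^ (i + 1) = 2 * 2 ^ i := by rw [pow_succ]; ring
  have key : ∀ k, m ≤ k → (om (i + 1) t)[k]? = (om (i + 1) t')[k]? := by
    intro k hk
    have h1 := congrArg (fun l : List T => l[k - m]?) h
    simp only [List.getElem?_drop] at h1
    rwa [Nat.add_sub_cancel' hk] at h1
  have h1 := om_tail_a1 (i + 1) t
  have h2 := om_tail_a2 i t
  rw [key _ (by omega), om_tail_a1 (i + 1) t'] at h1
  rw [key _ (by omega), om_tail_a2 i t'] at h2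
  exact Prod.ext (Option.some.inj h2).symm (Option.some.inj h1).symm

end Pool.Agent.Helper501.EP
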