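import Pool.Agent.Helper501.EP.Defs
import Pool.Agent.Helper501.EP.P_om_length
import Pool.Agent.Helper501.EP.P_om_tail
import Pool.Agent.Helper501.EP.P_chunk_distinct
import Pool.Agent.Helper501.EP.P_pw_length

set_option autoImplicit false

namespace Pool.Agent.Helper501.EP
open Matrix


theorem flat_len {α : Type} (l : ℕ) (L : List (List α)) (h : ∀ a ∈ L, a.length = l) :
    L.flatten.length = L.length * l := by
  induction L with
  | nil => simp
  | cons a L ih =>
    rw [List.flatten_cons, List.length_append, h a (by simp), ih (fun b hb => h b (by simp [hb])),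
      List.length_cons]
    ring

theorem flat_chunk {α : Type} (l : ℕ) (L : List (List α)) (h : ∀ a ∈ L, a.length = l)
    (j : ℕ) (hj : j < L.length) : chunk l L.flatten j = L[j] := by
  induction L generalizing j with
  | nil => simp at hj
  | cons a L ih =>
    have ha : a.length = l := h a (by simp)
    cases j with
    | zero =>
      rw [chunk, zero_mul, List.drop_zero, List.flatten_cons, List.take_append_of_le_length ha.ge,
        List.take_of_length_le ha.le]
      rfl
    | succ j =>
      have hj' : j < L.length := by simpa using hj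
      have h1 := ih (fun b hb => h b (by simp [hb])) j hj'
      rw [List.getElem_cons_succ, ← h1, chunk, chunk, List.flatten_cons]
      have : (j + 1) * l = a.length + j * l := by rw [ha]; ring
      rw [this, List.drop_append, List.drop_eq_nil_of_le (by omega), List.nil_append]
      congr 2
      omega

theorem pw_flat_len (N l : ℕ) (w : List T) (h : N * l ≤ w.length) (π : Equiv.Perm (Fin N)) :
    (∀ a ∈ List.ofFn (fun j : Fin N => chunk l w (π j)), a.length = l) ∧
    ((List.ofFn (fun j : Fin N => chunk l w (π j))).flatten).length = N * l := by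
  have h1 : ∀ a ∈ List.ofFn (fun j : Fin N => chunk l w (π j)), a.length = l := by
    intro a ha
    rw [List.mem_ofFn] at ha
    obtain ⟨j, rfl⟩ := ha
    simp only [chunk, List.length_take, List.length_drop]
    have h2 : ((π j : ℕ) + 1) * l ≤ N * l := Nat.mul_le_mul_right _ (π j).2
    have h3 : ((π j : ℕ) + 1) * l = (π j : ℕ) * l + l := by ring
    omega
  refine ⟨h1, ?_⟩
  rw [flat_len l _ h1, List.length_ofFn]

theorem pw_chunk (N l : ℕ) (w : List T) (h : N * l ≤ w.length) (π : Equiv.Perm (Fin N))
    (j : Fin N) : chunk l (pw N l w π) j = chunk l w (π j) := by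
  obtain ⟨h1, h2⟩ := pw_flat_len N l w h π
  have h3 := flat_chunk l _ h1 j (by simp)
  rw [List.getElem_ofFn] at h3
  rw [← h3, pw, chunk, chunk]
  have h4 : ((j : ℕ) + 1) * l ≤ N * l := Nat.mul_le_mul_right _ j.2
  have h5 : ((j : ℕ) + 1) * l = (j : ℕ) * l + l := by ring
  rw [List.drop_append_of_le_length (by rw [h2]; omega),
    List.take_append_of_le_length (by rw [List.length_drop, h2]; omega)]

theorem pw_eq (i N l : ℕ) (t t' : T) (hN : N * l < 2 ^ i) (hodd : Odd l) (hNl : N ≤ l)
    (π : Equiv.Perm (Fin N)) (h : pw N l (om (i + 1) t) π = om (i + 1) t') : π = 1 ∧ t = t' := by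
  have hlen : ∀ t, N * l ≤ (om (i + 1) t).length := by
    intro t
    rw [om_length]
    calc N * l ≤ 2 ^ i := hN.le
      _ ≤ 2 ^ (i + 1) := Nat.pow_le_pow_right (by norm_num) (by omega)
  have ht : t = t' := by
    apply om_tail i (N * l) t t' hN
    rw [← h, pw]
    have h2 := (pw_flat_len N l _ (hlen t) π).2
    rw [List.drop_append_of_le_length h2.ge, List.drop_eq_nil_of_le h2.le, List.nil_append]
  subst ht
  refine ⟨?_, rfl⟩
  ext j
  have h3 := pw_chunk N l _ (hlen t) π j
  rw [h] at h3
  rw [Equiv.Perm.coe_one, id]
  exact chunk_distinct i N l t hN hodd hNl _ _ (π j).2 j.2 h3.symm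

end Pool.Agent.Helper501.EP
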