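import Pool.Agent.Helper501.EP.Defs

set_option autoImplicit false

namespace Pool.Agent.Helper501.EP
open Matrix


theorem pw_one_aux (N l : ℕ) (w : List T) :
    (List.ofFn (fun j : Fin N => chunk l w j)).flatten = w.take (N * l) := by
  induction N with
  | zero => simp
  | succ N ih =>
    rw [List.ofFn_succ', List.concat_eq_append, List.flatten_append]
    have h1 : (List.ofFn fun i : Fin N => chunk l w ((Fin.castSucc i : Fin (N + 1)) : ℕ)).flatten =
        w.take (N * l) := ih
    rw [h1, Nat.succ_mul, List.take_add]
    simp [chunk]

theorem pw_one (N l : ℕ) (w : List T) (h : N * l ≤ w.length) : pw N l w 1 = w := by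
  unfold pw
  have h1 : (fun j : Fin N => chunk l w ((1 : Equiv.Perm (Fin N)) j)) =
      fun j : Fin N => chunk l w j := rfl
  rw [h1, pw_one_aux, List.take_append_drop]

end Pool.Agent.Helper501.EP
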