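import Pool.Agent.Helper501.EP.Defs
import Pool.Agent.Helper501.EP.P_om_length
import Pool.Agent.Helper501.EP.P_bw_length
import Pool.Agent.Helper501.EP.P_bw_add
import Pool.Agent.Helper501.EP.P_pw_one
import Pool.Agent.Helper501.EP.P_pw_length
import Pool.Agent.Helper501.EP.P_pw_eq
import Pool.Agent.Helper501.EP.P_cf_prod_flatten
import Pool.Agent.Helper501.EP.P_phi_hom

set_option autoImplicit false

namespace Pool.Agent.Helper501.EP
open Matrix


theorem phi_bw (s : ℕ) (t t' : T) : cf (phi s t) (bw (mm s) t') = if t = t' then 1 else 0 := by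
  induction s generalizing t t' with
  | zero =>
    show cf (wrd [t.1, t.2]) [t'.1, t'.2] = _
    unfold cf wrd
    rw [MonoidAlgebra.coeff_single]
    by_cases h : t = t'
    · rw [if_pos h, h, Finsupp.single_eq_same]
    · rw [if_neg h, Finsupp.single_eq_of_ne']
      intro h2
      apply h
      have h3 := FreeMonoid.ofList.injective h2
      rw [List.cons.injEq, List.cons.injEq] at h3
      exact Prod.ext h3.1 h3.2.1
  | succ s ih =>
    have hlt : Nn s * ll s < 2 ^ (Nn s * ll s) := Nat.lt_two_pow_self
    have hle : Nn s * ll s ≤ 2 ^ (ii s) := by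
      unfold ii
      rw [pow_succ]; omega
    have h1 : bw (mm (s + 1)) t' = ((om (ii s) t').map (bw (mm s))).flatten := bw_add _ _ _
    rw [h1]
    have h2 : cf (phi (s + 1) t) ((om (ii s) t').map (bw (mm s))).flatten =
        ∑ π : Equiv.Perm (Fin (Nn s)), ((Equiv.Perm.sign π : ℤ) : ℚ) *
          cf ((pw (Nn s) (ll s) (om (ii s) t) π).map (phi s)).prod
            ((om (ii s) t').map (bw (mm s))).flatten := by
      unfold cf
      rw [phi, MonoidAlgebra.coeff_sum, Finsupp.finsetSum_apply]
      apply Finset.sum_congr rfl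
      intro π _
      rw [MonoidAlgebra.coeff_smul, Finsupp.smul_apply, smul_eq_mul]
    rw [h2]
    have h3 : ∀ π : Equiv.Perm (Fin (Nn s)),
        cf ((pw (Nn s) (ll s) (om (ii s) t) π).map (phi s)).prod
            ((om (ii s) t').map (bw (mm s))).flatten =
          if π = 1 ∧ t = t' then 1 else 0 := by
      intro π
      rw [cf_prod_flatten (nn s) (phi s) (phi_hom s) (bw (mm s)) (fun t => bw_length _ t) ih]
      · apply if_congr _ rfl rfl
        constructor
        · intro h
          apply pw_eq (Nn s * ll s) (Nn s) (ll s) t t' hlt _ _ π h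
          · exact ⟨s * s + 1, rfl⟩
          · unfold Nn ll; omega
        · rintro ⟨rfl, rfl⟩
          apply pw_one
          rw [om_length]; exact hle
      · rw [pw_length _ _ _ (by rw [om_length]; exact hle), om_length, om_length]
    simp only [h3]
    by_cases htt : t = t'
    · simp [htt]
    · simp [htt]

end Pool.Agent.Helper501.EP
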