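import Pool.Agent.Helper501.EP.Defs
import Pool.Agent.Helper501.EP.P_phi_bw

set_option autoImplicit false

namespace Pool.Agent.Helper501.EP
open Matrix


theorem E_bw_mm (s : ℕ) : s + 1 ≤ mm s := by
  induction s with
  | zero => exact le_rfl
  | succ s ih =>
    have h : mm (s + 1) = mm s + ii s := rfl
    have h2 : 1 ≤ ii s := Nat.succ_le_succ (Nat.zero_le _)
    omega

theorem E_bw_pre (n d : ℕ) :
    ∃ rest, bw (n + d) (false, false) = bw n (false, false) ++ rest := by
  induction d with
  | zero => exact ⟨[], by simp⟩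
  | succ d ih =>
    obtain ⟨rest, h⟩ := ih
    refine ⟨rest ++ bw (n + d) (true, false), ?_⟩
    have h2 : bw (n + (d + 1)) (false, false) =
        bw (n + d) (false, false) ++ bw (n + d) (true, false) := rfl
    rw [h2, h, List.append_assoc]

theorem E_bw_pr (φ : FA) (p q w : List Bool) : pr φ p q (wrd w) = cf φ (p ++ w ++ q) := by
  unfold pr wrd
  rw [MonoidAlgebra.coeff_single, Finsupp.sum_single_index (by rw [zero_mul]), one_mul]
  rfl

theorem E_bw (E : Ideal FA)
    (hE : ∀ r : FA, r ∈ E ↔ ∀ (s : ℕ) (t : T) (p q : List Bool), pr (phi s t) p q r = 0)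
    (n : ℕ) : wrd (bw n (false, false)) ∉ E := by
  intro h
  have hm := E_bw_mm n
  obtain ⟨rest, hr⟩ := E_bw_pre n (mm n - n)
  rw [show n + (mm n - n) = mm n by omega] at hr
  have h1 := (hE _).1 h n (false, false) [] rest
  rw [E_bw_pr, List.nil_append, ← hr, phi_bw] at h1
  simp at h1

end Pool.Agent.Helper501.EP
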