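import Pool.Agent.Helper501.EP.Defs

set_option autoImplicit false

namespace Pool.Agent.Helper501.EP
open Matrix


theorem h170_VV_zero {R S : Type} [CommRing R] [Ring S] (ρ : R →+* S) (x : Bool → S) (d : ℕ) :
    VV ρ x d 0 := by
  induction d with
  | zero => exact ⟨fun _ => 0, by simp⟩
  | succ d ih => exact ⟨fun _ => 0, fun _ => 0, fun _ => ih, by simp⟩

theorem h170_VV_add {R S : Type} [CommRing R] [Ring S] (ρ : R →+* S) (x : Bool → S) (d : ℕ) :
    ∀ y z : S, VV ρ x d y → VV ρ x d z → VV ρ x d (y + z) := by
  induction d with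
  | zero =>
    rintro y z ⟨c, hc⟩ ⟨c', hc'⟩
    refine ⟨fun a => c a + c' a, ?_⟩
    rw [hc, hc', map_add, map_add]
    noncomm_ring
  | succ d ih =>
    rintro y z ⟨c, g, hg, hc⟩ ⟨c', g', hg', hc'⟩
    refine ⟨fun a => c a + c' a, fun a => g a + g' a, fun a => ih _ _ (hg a) (hg' a), ?_⟩
    rw [hc, hc', map_add, map_add]
    noncomm_ring

theorem h170_VV_succ {R S : Type} [CommRing R] [Ring S] (ρ : R →+* S) (x : Bool → S) (d : ℕ) :
    ∀ z : S, VV ρ x d z → VV ρ x (d + 1) z := by
  induction d with
  | zero =>
    rintro z ⟨c, hc⟩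
    exact ⟨c, fun _ => 0, fun _ => h170_VV_zero ρ x 0, by rw [hc]; simp⟩
  | succ d ih =>
    rintro z ⟨c, g, hg, hc⟩
    exact ⟨c, g, fun a => ih _ (hg a), hc⟩

theorem h170_VV_mono {R S : Type} [CommRing R] [Ring S] (ρ : R →+* S) (x : Bool → S) {d d' : ℕ}
    (hd : d ≤ d') (z : S) (hz : VV ρ x d z) : VV ρ x d' z := by
  induction d', hd using Nat.le_induction with
  | base => exact hz
  | succ k _ ih => exact h170_VV_succ ρ x k z ih

theorem h170_VV_word (E : Ideal FA) [E.IsTwoSided] (c : ℚ) (u : List Bool) (hu : u ≠ []) :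
    ∃ d, VV (Polynomial.mapRingHom (algebraMap ℚ (FA ⧸ E)))
      (fun a => Polynomial.C (Ideal.Quotient.mk E (wrd [a]))) d
      (Polynomial.X * Polynomial.C (Ideal.Quotient.mk E
        (MonoidAlgebra.single (FreeMonoid.ofList u) c))) := by
  induction u using List.reverseRecOn with
  | nil => exact absurd rfl hu
  | append_singleton v a ih =>
    have h1 : (MonoidAlgebra.single (FreeMonoid.ofList (v ++ [a])) c : FA) =
        MonoidAlgebra.single (FreeMonoid.ofList v) c * wrd [a] := by
      unfold wrd
      rw [MonoidAlgebra.single_mul_single, mul_one]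
      rfl
    rw [h1, map_mul, map_mul, ← mul_assoc]
    by_cases hv : v = []
    · subst hv
      refine ⟨0, fun b => if b = a then Polynomial.C c * Polynomial.X else 0, ?_⟩
      have h2 : Ideal.Quotient.mk E (MonoidAlgebra.single (FreeMonoid.ofList ([] : List Bool)) c) =
          algebraMap ℚ (FA ⧸ E) c := rfl
      have h3 : (Polynomial.mapRingHom (algebraMap ℚ (FA ⧸ E))) (Polynomial.C c * Polynomial.X) =
          Polynomial.X * Polynomial.C (algebraMap ℚ (FA ⧸ E) c) := by
        rw [Polynomial.coe_mapRingHom, Polynomial.map_mul, Polynomial.map_C, Polynomial.map_X,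
          Polynomial.X_mul_C]
      rw [h2]
      cases a
      · show _ = (Polynomial.mapRingHom (algebraMap ℚ (FA ⧸ E)))
            (if false = false then Polynomial.C c * Polynomial.X else 0) * _ +
          (Polynomial.mapRingHom (algebraMap ℚ (FA ⧸ E)))
            (if true = false then Polynomial.C c * Polynomial.X else 0) * _
        rw [if_pos rfl, if_neg (by decide), map_zero, zero_mul, add_zero, h3]
      · show _ = (Polynomial.mapRingHom (algebraMap ℚ (FA ⧸ E)))
            (if false = true then Polynomial.C c * Polynomial.X else 0) * _ +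
          (Polynomial.mapRingHom (algebraMap ℚ (FA ⧸ E)))
            (if true = true then Polynomial.C c * Polynomial.X else 0) * _
        rw [if_pos rfl, if_neg (by decide), map_zero, zero_mul, zero_add, h3]
    · obtain ⟨d, hd⟩ := ih hv
      refine ⟨d + 1, fun _ => 0, fun b => if b = a then
        (Polynomial.X * Polynomial.C (Ideal.Quotient.mk E
          (MonoidAlgebra.single (FreeMonoid.ofList v) c))) else 0, ?_, ?_⟩
      · intro b
        show VV _ _ d (if b = a then _ else 0)
        split_ifs
        · exact hd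
        · exact h170_VV_zero _ _ d
      · cases a
        · simp
        · simp

theorem VV_X (E : Ideal FA) [E.IsTwoSided] (r : FA) (hr : cf r [] = 0) :
    ∃ d, ∀ d', d ≤ d' → VV (Polynomial.mapRingHom (algebraMap ℚ (FA ⧸ E)))
      (fun a => Polynomial.C (Ideal.Quotient.mk E (wrd [a]))) d'
      (Polynomial.X * Polynomial.C (Ideal.Quotient.mk E r)) := by
  classical
  have key : ∀ r : FA, ∃ d, VV (Polynomial.mapRingHom (algebraMap ℚ (FA ⧸ E)))
      (fun a => Polynomial.C (Ideal.Quotient.mk E (wrd [a]))) d
      (Polynomial.X * Polynomial.C (Ideal.Quotient.mk E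
        (r - MonoidAlgebra.single (FreeMonoid.ofList []) (cf r [])))) := by
    intro r
    induction r using MonoidAlgebra.induction_linear with
    | zero =>
      refine ⟨0, ?_⟩
      have h1 : cf (0 : FA) [] = 0 := rfl
      rw [h1, MonoidAlgebra.single_zero, sub_zero, map_zero, map_zero, mul_zero]
      exact h170_VV_zero _ _ 0
    | add f g hf hg =>
      obtain ⟨d, hd⟩ := hf
      obtain ⟨d', hd'⟩ := hg
      refine ⟨max d d', ?_⟩
      have h1 : cf (f + g) [] = cf f [] + cf g [] := rfl
      have h2 : f + g - MonoidAlgebra.single (FreeMonoid.ofList []) (cf (f + g) []) =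
          (f - MonoidAlgebra.single (FreeMonoid.ofList []) (cf f [])) +
          (g - MonoidAlgebra.single (FreeMonoid.ofList []) (cf g [])) := by
        rw [h1, MonoidAlgebra.single_add]
        abel
      rw [h2, map_add, map_add, mul_add]
      exact h170_VV_add _ _ _ _ _ (h170_VV_mono _ _ (le_max_left _ _) _ hd)
        (h170_VV_mono _ _ (le_max_right _ _) _ hd')
    | single u c =>
      by_cases hu : FreeMonoid.toList u = []
      · have hu' : u = FreeMonoid.ofList [] := by
          rw [← hu]
          rfl
        subst hu'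
        refine ⟨0, ?_⟩
        have h1 : cf (MonoidAlgebra.single (FreeMonoid.ofList ([] : List Bool)) c) [] = c := by
          unfold cf
          rw [MonoidAlgebra.coeff_single, Finsupp.single_eq_same]
        rw [h1, sub_self, map_zero, map_zero, mul_zero]
        exact h170_VV_zero _ _ 0
      · have h1 : cf (MonoidAlgebra.single u c) [] = 0 := by
          unfold cf
          rw [MonoidAlgebra.coeff_single, Finsupp.single_apply, if_neg]
          intro h
          apply hu
          rw [h]
          rfl
        rw [h1, MonoidAlgebra.single_zero, sub_zero]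
        exact h170_VV_word E c (FreeMonoid.toList u) hu
  obtain ⟨d, hd⟩ := key r
  rw [hr, MonoidAlgebra.single_zero, sub_zero] at hd
  exact ⟨d, fun d' hdd => h170_VV_mono _ _ hdd _ hd⟩

end Pool.Agent.Helper501.EP
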