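import Pool.Agent.Helper501.EP.Defs

set_option autoImplicit false

namespace Pool.Agent.Helper501.EP
open Matrix


theorem VV_zero_mem258 {R S : Type} [CommRing R] [Ring S] (ρ : R →+* S) (x : Bool → S) (d : ℕ) :
    VV ρ x d 0 := by
  induction d with
  | zero => exact ⟨fun _ => 0, by simp⟩
  | succ d ih => exact ⟨fun _ => 0, fun _ => 0, fun _ => ih, by simp⟩

theorem VV_of_zero258 {R S : Type} [CommRing R] [Ring S] (ρ : R →+* S) (x : Bool → S) (d : ℕ)
    (z : S) (h : VV ρ x 0 z) : VV ρ x d z := by
  cases d with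
  | zero => exact h
  | succ d =>
    obtain ⟨c, hc⟩ := h
    exact ⟨c, fun _ => 0, fun _ => VV_zero_mem258 ρ x d, by rw [hc]; simp⟩

theorem VV_x258 {R S : Type} [CommRing R] [Ring S] (ρ : R →+* S) (x : Bool → S) (a : Bool) :
    VV ρ x 0 (x a) := by
  cases a
  · exact ⟨fun b => if b then 0 else 1, by simp⟩
  · exact ⟨fun b => if b then 1 else 0, by simp⟩

theorem lin_unit {R S : Type} [CommRing R] [Ring S] (ρ : R →+* S) (hρ : ∀ r s, ρ r * s = s * ρ r)
    (x : Bool → S)
    (H : ∀ (n : Type) [Fintype n] [DecidableEq n] (M : Bool → Matrix n n R),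
      IsUnit ((1 : Matrix n n S) - pen ρ x M))
    (d : ℕ) (n : Type) [Fintype n] [DecidableEq n] (F : Matrix n n S)
    (hF : ∀ i j, VV ρ x d (F i j)) : IsUnit (1 - F) := by
  have key : ∀ (d : ℕ) (n : Type) [Fintype n] [DecidableEq n] (F : Matrix n n S),
      (∀ i j, VV ρ x d (F i j)) → IsUnit (1 - F) := by
    intro d
    induction d with
    | zero =>
      intro n _ _ F hF
      choose c hc using hF
      have : F = pen ρ x (fun b => (fun i j => c i j b : Matrix n n R)) := by
        ext i j
        exact hc i j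
      rw [this]
      exact H n _
    | succ d ih =>
      intro n _ _ F hF
      choose c g hg hF using hF
      let F0 : Matrix n n S := fun i j => ρ (c i j false) * x false + ρ (c i j true) * x true
      let G : Matrix n (Bool × n) S := fun i p => g i p.2 p.1
      let Hm : Matrix (Bool × n) n S := fun p j => if p.2 = j then x p.1 else 0
      have hFF : F = F0 + G * Hm := by
        ext i j
        rw [hF i j, Matrix.add_apply, Matrix.mul_apply, Fintype.sum_prod_type]
        simp only [Fintype.sum_bool, G, Hm, F0, mul_ite, mul_zero, Finset.sum_ite_eq',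
          Finset.mem_univ, if_true]
        abel
      have hu := ih (n ⊕ (Bool × n)) (Matrix.fromBlocks F0 G Hm 0) (by
        intro i j
        rcases i with i | i <;> rcases j with j | j
        · exact VV_of_zero258 ρ x d _ ⟨c i j, rfl⟩
        · exact hg i j.2 j.1
        · show VV ρ x d (if i.2 = j then x i.1 else 0)
          split_ifs
          · exact VV_of_zero258 ρ x d _ (VV_x258 ρ x i.1)
          · exact VV_zero_mem258 ρ x d
        · exact VV_zero_mem258 ρ x d)
      obtain ⟨V, hV1, hV2⟩ := isUnit_iff_exists.mp hu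
      have h1 : (1 : Matrix (n ⊕ (Bool × n)) (n ⊕ (Bool × n)) S) - Matrix.fromBlocks F0 G Hm 0
          = Matrix.fromBlocks (1 - F0) (-G) (-Hm) 1 := by
        rw [← Matrix.fromBlocks_one, sub_eq_add_neg, Matrix.fromBlocks_neg, Matrix.fromBlocks_add]
        simp [sub_eq_add_neg]
      rw [h1] at hV1 hV2
      rw [← Matrix.fromBlocks_toBlocks V, Matrix.fromBlocks_multiply, ← Matrix.fromBlocks_one,
        Matrix.fromBlocks_inj] at hV1 hV2
      obtain ⟨a1, a2, a3, a4⟩ := hV1
      obtain ⟨b1, b2, b3, b4⟩ := hV2
      set P := V.toBlocks₁₁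
      set Q := V.toBlocks₁₂
      set R' := V.toBlocks₂₁
      set S' := V.toBlocks₂₂
      have hR : R' = Hm * P := by
        rw [Matrix.one_mul, Matrix.neg_mul] at a3
        exact (neg_add_eq_zero.mp a3).symm
      have hQ : Q = P * G := by
        rw [Matrix.mul_one, Matrix.mul_neg] at b2
        exact (neg_add_eq_zero.mp b2).symm
      refine isUnit_iff_exists.mpr ⟨P, ?_, ?_⟩
      · rw [hFF]
        rw [hR, Matrix.neg_mul, ← Matrix.mul_assoc] at a1
        refine Eq.trans ?_ a1
        noncomm_ring
      · rw [hFF]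
        rw [hQ, Matrix.mul_neg, Matrix.mul_assoc] at b1
        refine Eq.trans ?_ b1
        noncomm_ring
  exact key d n F hF

end Pool.Agent.Helper501.EP
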