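import Pool.Agent.Helper501.EP.Defs

set_option autoImplicit false

namespace Pool.Agent.Helper501.EP
open Matrix


theorem nil_of_unit {S n : Type} [Ring S] [Fintype n] [DecidableEq n] (F : Matrix n n S)
    (h : IsUnit ((1 : Matrix n n (Polynomial S)) - Matrix.of fun i j => Polynomial.X * Polynomial.C (F i j))) :
    IsNilpotent F := by
  obtain ⟨u, hu⟩ := h
  set G : Matrix n n (Polynomial S) := ↑u⁻¹ with hGdef
  have hG : ((1 : Matrix n n (Polynomial S)) -
      Matrix.of fun i j => Polynomial.X * Polynomial.C (F i j)) * G = 1 := by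
    rw [← hu]
    exact u.mul_inv
  rw [sub_mul, one_mul, sub_eq_iff_eq_add] at hG
  have hent : ∀ i j, G i j = (1 : Matrix n n (Polynomial S)) i j
      + ∑ l, Polynomial.X * Polynomial.C (F i l) * G l j := by
    intro i j
    have h1 := congrFun (congrFun hG i) j
    rw [Matrix.add_apply, Matrix.mul_apply] at h1
    exact h1
  have hone : ∀ i j (k : ℕ), ((1 : Matrix n n (Polynomial S)) i j).coeff k
      = if k = 0 then (1 : Matrix n n S) i j else 0 := by
    intro i j k
    by_cases hij : i = j
    · subst hij
      rw [Matrix.one_apply_eq, Matrix.one_apply_eq, Polynomial.coeff_one]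
    · rw [Matrix.one_apply_ne hij, Matrix.one_apply_ne hij, Polynomial.coeff_zero, ite_self]
  have hk : ∀ k : ℕ, ∀ i j, (G i j).coeff k = (F ^ k) i j := by
    intro k
    induction k with
    | zero =>
      intro i j
      rw [hent i j, Polynomial.coeff_add, hone, if_pos rfl, Polynomial.finset_sum_coeff,
        Finset.sum_eq_zero, add_zero, pow_zero]
      intro l _
      rw [mul_assoc, Polynomial.coeff_X_mul_zero]
    | succ k ih =>
      intro i j
      rw [hent i j, Polynomial.coeff_add, hone, if_neg (Nat.succ_ne_zero k), zero_add,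
        Polynomial.finset_sum_coeff, pow_succ', Matrix.mul_apply]
      refine Finset.sum_congr rfl fun l _ => ?_
      rw [mul_assoc, Polynomial.coeff_X_mul, Polynomial.coeff_C_mul, ih]
  refine ⟨(∑ i, ∑ j, (G i j).natDegree) + 1, ?_⟩
  ext i j
  rw [← hk, Matrix.zero_apply]
  apply Polynomial.coeff_eq_zero_of_natDegree_lt
  have h1 : (G i j).natDegree ≤ ∑ j, (G i j).natDegree :=
    Finset.single_le_sum (f := fun j => (G i j).natDegree) (fun _ _ => Nat.zero_le _)
      (Finset.mem_univ j)
  have h2 : ∑ j, (G i j).natDegree ≤ ∑ i, ∑ j, (G i j).natDegree :=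
    Finset.single_le_sum (f := fun i => ∑ j, (G i j).natDegree) (fun _ _ => Nat.zero_le _)
      (Finset.mem_univ i)
  omega

end Pool.Agent.Helper501.EP
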