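import Pool.Agent.Helper501.EP.Defs

set_option autoImplicit false

namespace Pool.Agent.Helper501.EP
open Matrix


theorem alt_zero {R n : Type} [CommRing R] [Fintype n] [DecidableEq n] (N : ℕ)
    (hN : Fintype.card n * Fintype.card n < N) (Z : Fin N → Matrix n n R) :
    ∑ π : Equiv.Perm (Fin N), (Equiv.Perm.sign π : ℤ) • (List.ofFn fun j => Z (π j)).prod = 0 := by
  classical
  have h0 : MultilinearMap.alternatization (MultilinearMap.mkPiAlgebraFin R N (Matrix n n R)) = 0 := by
    refine Module.Basis.ext_alternating (Matrix.stdBasis R n n) ?_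
    intro v hv
    exfalso
    have := Fintype.card_le_of_injective v hv
    rw [Fintype.card_fin, Fintype.card_prod] at this
    omega
  have h1 := congrArg (fun f => f Z) h0
  simp only [MultilinearMap.alternatization_apply] at h1
  have h2 : ∀ π : Equiv.Perm (Fin N), (Equiv.Perm.sign π : ℤ) • (List.ofFn fun j => Z (π j)).prod
      = Equiv.Perm.sign π • (MultilinearMap.domDomCongr π (MultilinearMap.mkPiAlgebraFin R N (Matrix n n R))) Z := by
    intro π
    rfl
  rw [Finset.sum_congr rfl (fun π _ => h2 π)]
  exact h1

end Pool.Agent.Helper501.EP
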