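import Pool.Agent.Helper501.EP.Defs
import Pool.Agent.Helper501.EP.P_alt_zero

set_option autoImplicit false

namespace Pool.Agent.Helper501.EP
open Matrix


theorem ev_phi {R n : Type} [CommRing R] [Algebra ℚ R] [Fintype n] [DecidableEq n]
    (M : Bool → Matrix n n R) (s : ℕ) (hs : Fintype.card n ≤ s) (t : T) :
    ev M (phi (s + 1) t) = 0 := by
  have hN : Fintype.card n * Fintype.card n < Nn s := by
    unfold Nn
    have := Nat.mul_le_mul hs hs
    omega
  set w := om (ii s) t with hw
  let f : T → Matrix n n R := fun t => ev M (phi s t)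
  let Z : Fin (Nn s) → Matrix n n R := fun j => ((chunk (ll s) w (j : ℕ)).map f).prod
  let Zq : Matrix n n R := ((w.drop (Nn s * ll s)).map f).prod
  have h1 : ev M (phi (s + 1) t) = ∑ π : Equiv.Perm (Fin (Nn s)),
      (Equiv.Perm.sign π : ℤ) • ((List.ofFn fun j => Z (π j)).prod * Zq) := by
    unfold phi
    rw [map_sum]
    refine Finset.sum_congr rfl (fun π _ => ?_)
    rw [map_smul, Int.cast_smul_eq_zsmul]
    congr 1
    rw [map_list_prod, List.map_map]
    unfold pw
    rw [List.map_append, List.prod_append]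
    congr 1
    rw [List.map_flatten, List.prod_flatten, List.map_ofFn, List.map_ofFn]
    rfl
  have h2 := alt_zero (Nn s) hN Z
  rw [h1]
  have h3 : ∀ π : Equiv.Perm (Fin (Nn s)), (Equiv.Perm.sign π : ℤ) • ((List.ofFn fun j => Z (π j)).prod * Zq)
      = ((Equiv.Perm.sign π : ℤ) • (List.ofFn fun j => Z (π j)).prod) * Zq := by
    intro π
    rw [smul_mul_assoc]
  simp_rw [h3]
  rw [← Finset.sum_mul, h2, zero_mul]

end Pool.Agent.Helper501.EP
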