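import Pool.Agent.Helper501.EP.Defs
import Pool.Agent.Helper501.EP.P_om_length
import Pool.Agent.Helper501.EP.P_pw_length

set_option autoImplicit false

namespace Pool.Agent.Helper501.EP
open Matrix


theorem j22000_mm_mono (s0 d : ℕ) : mm s0 ≤ mm (s0 + d) := by
  induction d with
  | zero => exact le_refl _
  | succ d ih =>
    have h : mm (s0 + (d + 1)) = mm (s0 + d) + ii (s0 + d) := rfl
    rw [h]
    omega

theorem j22000_list_mem (Q : Submodule ℚ FA) (f : T → FA) (hf : ∀ t, f t ∈ Q) (w : List T) :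
    (w.map f).prod ∈ Q ^ w.length := by
  induction w with
  | nil =>
    rw [List.map_nil, List.prod_nil, List.length_nil, pow_zero]
    exact Submodule.one_le.mp le_rfl
  | cons a w ih =>
    rw [List.map_cons, List.prod_cons, List.length_cons, pow_succ']
    exact Submodule.mul_mem_mul (hf a) ih

theorem phi_span (s0 d : ℕ) (t : T) :
    phi (s0 + d) t ∈ (Submodule.span ℚ (Set.range (phi s0))) ^ (2 ^ (mm (s0 + d) - mm s0)) := by
  induction d generalizing t with
  | zero =>
    have h0 : 2 ^ (mm (s0 + 0) - mm s0) = 1 := by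
      rw [Nat.add_zero, Nat.sub_self, pow_zero]
    rw [h0, pow_one]
    exact Submodule.subset_span ⟨t, rfl⟩
  | succ d ih =>
    have hphi : phi (s0 + (d + 1)) t = ∑ π : Equiv.Perm (Fin (Nn (s0 + d))),
      ((Equiv.Perm.sign π : ℤ) : ℚ) •
        ((pw (Nn (s0 + d)) (ll (s0 + d)) (om (ii (s0 + d)) t) π).map (phi (s0 + d))).prod := rfl
    rw [hphi]
    refine Submodule.sum_mem _ fun π _ => Submodule.smul_mem _ _ ?_
    have hlen : Nn (s0 + d) * ll (s0 + d) ≤ (om (ii (s0 + d)) t).length := by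
      rw [om_length]
      have h1 : ii (s0 + d) = Nn (s0 + d) * ll (s0 + d) + 1 := rfl
      rw [h1]
      have h2 : Nn (s0 + d) * ll (s0 + d) < 2 ^ (Nn (s0 + d) * ll (s0 + d)) := Nat.lt_two_pow_self
      have h3 : 2 ^ (Nn (s0 + d) * ll (s0 + d)) ≤ 2 ^ (Nn (s0 + d) * ll (s0 + d) + 1) :=
        Nat.pow_le_pow_right (by norm_num) (by omega)
      omega
    have h4 := j22000_list_mem _ (phi (s0 + d)) ih
      (pw (Nn (s0 + d)) (ll (s0 + d)) (om (ii (s0 + d)) t) π)
    rw [pw_length _ _ _ hlen π, om_length, ← pow_mul, ← pow_add] at h4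
    have h5 : mm (s0 + d) - mm s0 + ii (s0 + d) = mm (s0 + (d + 1)) - mm s0 := by
      have h6 : mm (s0 + (d + 1)) = mm (s0 + d) + ii (s0 + d) := rfl
      have h7 := j22000_mm_mono s0 d
      rw [h6]
      omega
    rw [h5] at h4
    exact h4

end Pool.Agent.Helper501.EP
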