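import Pool.Agent.Helper501.EP.Defs

set_option autoImplicit false

namespace Pool.Agent.Helper501.EP
open Matrix


theorem ev_hom {R n : Type} [CommRing R] [Algebra ℚ R] [Fintype n] [DecidableEq n]
    (M : Bool → Matrix n n R) (e : ℕ) (ψ : FA) (h : Hom e ψ) :
    ev M ψ = ∑ f : Fin e → Bool, cf ψ (List.ofFn f) • Mw M (List.ofFn f) := by
  classical
  have h1 : ev M ψ = ∑ u ∈ ψ.coeff.support, ψ.coeff u • FreeMonoid.lift M u := by
    unfold ev
    rw [MonoidAlgebra.lift_apply]
    rfl
  have hinj : Function.Injective (fun f : Fin e → Bool => FreeMonoid.ofList (List.ofFn f)) := by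
    intro f g hfg
    exact List.ofFn_injective hfg
  have h2 : ∑ f : Fin e → Bool, cf ψ (List.ofFn f) • Mw M (List.ofFn f) =
      ∑ u ∈ (Finset.univ : Finset (Fin e → Bool)).image
        (fun f => FreeMonoid.ofList (List.ofFn f)), ψ.coeff u • FreeMonoid.lift M u := by
    rw [Finset.sum_image (fun a _ b _ hab => hinj hab)]
    refine Finset.sum_congr rfl fun f _ => ?_
    rw [FreeMonoid.lift_apply]
    rfl
  rw [h1, h2]
  apply Finset.sum_subset
  · intro u hu
    rw [Finsupp.mem_support_iff] at hu
    have h3 : (FreeMonoid.toList u).length = e := h (FreeMonoid.toList u) hu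
    obtain ⟨f, hf⟩ : ∃ f : Fin e → Bool, List.ofFn f = FreeMonoid.toList u := by
      generalize FreeMonoid.toList u = l at h3
      subst h3
      exact ⟨l.get, List.ofFn_get l⟩
    rw [Finset.mem_image]
    exact ⟨f, Finset.mem_univ _, by rw [hf]; rfl⟩
  · intro u _ hu
    rw [Finsupp.notMem_support_iff] at hu
    rw [hu, zero_smul]

end Pool.Agent.Helper501.EP
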