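import Pool.Agent.Helper501.EP.Defs
import Pool.Agent.Helper501.EP.P_cf_mul_hom
import Pool.Agent.Helper501.EP.P_hom_mul
import Pool.Agent.Helper501.EP.P_ev_hom

set_option autoImplicit false

namespace Pool.Agent.Helper501.EP
open Matrix


theorem cf_add' (φ ψ : FA) (w : List Bool) : cf (φ + ψ) w = cf φ w + cf ψ w := rfl

theorem Mw_append' {R n : Type} [CommRing R] [Fintype n] [DecidableEq n]
    (M : Bool → Matrix n n R) (u v : List Bool) : Mw M (u ++ v) = Mw M u * Mw M v := by
  simp [Mw]

/-- splitting the sum -/
theorem sum_split {R n : Type} [CommRing R] [Algebra ℚ R] [Fintype n] [DecidableEq n]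
    (M : Bool → Matrix n n R) (a b : ℕ) (F G : List Bool → ℚ) (H : List Bool → ℚ)
    (h : ∀ u v : List Bool, u.length = a → v.length = b → H (u ++ v) = F u * G v) :
    ∑ f : Fin (a + b) → Bool, H (List.ofFn f) • Mw M (List.ofFn f) =
      (∑ f : Fin a → Bool, F (List.ofFn f) • Mw M (List.ofFn f)) *
      (∑ f : Fin b → Bool, G (List.ofFn f) • Mw M (List.ofFn f)) := by
  rw [← (Fin.appendEquiv a b).sum_comp, Fintype.sum_prod_type, Finset.sum_mul_sum]
  refine Finset.sum_congr rfl fun f _ => Finset.sum_congr rfl fun g _ => ?_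
  have e : List.ofFn (Fin.appendEquiv a b (f, g)) = List.ofFn f ++ List.ofFn g := by
    simp [Fin.appendEquiv, List.ofFn_fin_append]
  rw [e, h _ _ (by simp) (by simp), Mw_append', smul_mul_smul_comm]

theorem window0 {R n : Type} [CommRing R] [Algebra ℚ R] [Fintype n] [DecidableEq n]
    (M : Bool → Matrix n n R) (P : Submodule ℚ FA) (m : ℕ) (hm : 0 < m)
    (hP : ∀ g ∈ P, Hom m g ∧ ev M g = 0) (l : ℕ) (z : FA) (hz : z ∈ P ^ (l + 1))
    (q : List Bool) (e : ℕ) (he : m ≤ e) :
    ∑ f : Fin e → Bool, cf z (List.ofFn f ++ q) • Mw M (List.ofFn f) = 0 := by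
  obtain ⟨b, rfl⟩ := Nat.exists_eq_add_of_le he
  rw [pow_succ'] at hz
  refine Submodule.mul_induction_on hz ?_ ?_
  · intro g hg z' _
    rw [sum_split M m b (fun u => cf g u) (fun v => cf z' (v ++ q)) (fun w => cf (g * z') (w ++ q))]
    · rw [← ev_hom M m g (hP g hg).1, (hP g hg).2, zero_mul]
    · intro u v hu hv
      show cf (g * z') (u ++ v ++ q) = _
      rw [cf_mul_hom m g z' (hP g hg).1, List.append_assoc]
      simp [← hu]
  · intro x y hx hy
    simp only [cf_add', add_smul, Finset.sum_add_distrib, hx, hy, add_zero]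

theorem window {R n : Type} [CommRing R] [Algebra ℚ R] [Fintype n] [DecidableEq n]
    (M : Bool → Matrix n n R) (P : Submodule ℚ FA) (m : ℕ) (hm : 0 < m)
    (hP : ∀ g ∈ P, Hom m g ∧ ev M g = 0) (l : ℕ) (z : FA) (hz : z ∈ P ^ l)
    (p q : List Bool) (e : ℕ) (hl : p.length + e + q.length = m * l) (he : 2 * m ≤ e) :
    ∑ f : Fin e → Bool, cf z (p ++ List.ofFn f ++ q) • Mw M (List.ofFn f) = 0 := by
  induction l generalizing z p q e with
  | zero => exfalso; simp at hl; omega
  | succ l ih =>
    rw [pow_succ'] at hz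
    refine Submodule.mul_induction_on hz ?_ ?_
    · intro g hg z' hz'
      have hg1 := (hP g hg).1
      have hml : m * (l + 1) = m * l + m := by ring
      rcases le_or_gt m p.length with hp | hp
      · have key : ∀ f : Fin e → Bool, cf (g * z') (p ++ List.ofFn f ++ q) =
            cf g (p.take m) * cf z' (p.drop m ++ List.ofFn f ++ q) := by
          intro f
          rw [cf_mul_hom m g z' hg1]
          congr 2
          · rw [List.append_assoc, List.take_append_of_le_length hp]
          · rw [List.append_assoc, List.drop_append_of_le_length hp, List.append_assoc]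
        simp only [key, mul_smul]
        rw [← Finset.smul_sum, ih z' hz' (p.drop m) q e (by simp; omega) he, smul_zero]
      · obtain ⟨a, ha⟩ := Nat.exists_eq_add_of_le hp.le
        have hae : a ≤ e := by omega
        obtain ⟨b, rfl⟩ := Nat.exists_eq_add_of_le hae
        rw [sum_split M a b (fun u => cf g (p ++ u)) (fun v => cf z' (v ++ q))
          (fun w => cf (g * z') (p ++ w ++ q))]
        · have hl0 : l ≠ 0 := by
            rintro rfl
            simp at hl
            omega
          obtain ⟨l', rfl⟩ := Nat.exists_eq_succ_of_ne_zero hl0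
          rw [window0 M P m hm hP l' z' hz' q b (by omega), mul_zero]
        · intro u v hu hv
          show cf (g * z') (p ++ (u ++ v) ++ q) = _
          rw [cf_mul_hom m g z' hg1]
          have h1 : p ++ (u ++ v) ++ q = (p ++ u) ++ (v ++ q) := by simp
          have h2 : (p ++ u).length = m := by simp; omega
          rw [h1, List.take_left' h2, List.drop_left' h2]
    · intro x y hx hy
      simp only [cf_add', add_smul, Finset.sum_add_distrib, hx, hy, add_zero]

end Pool.Agent.Helper501.EP
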