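import Pool.Agent.Helper501.EP.Defs
import Pool.Agent.Helper501.EP.P_phi_hom
import Pool.Agent.Helper501.EP.P_ev_phi
import Pool.Agent.Helper501.EP.P_phi_span
import Pool.Agent.Helper501.EP.P_window

set_option autoImplicit false

namespace Pool.Agent.Helper501.EP
open Matrix


theorem window_phi_mm {a b : ℕ} (h : a ≤ b) : mm a ≤ mm b := by
  refine monotone_nat_of_le_succ (f := mm) (fun n => ?_) h
  show mm n ≤ mm n + ii n
  exact Nat.le_add_right _ _

theorem window_phi {R n : Type} [CommRing R] [Algebra ℚ R] [Fintype n] [DecidableEq n]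
    (M : Bool → Matrix n n R) (D : ℕ) (hD : Fintype.card n ≤ D) (e : ℕ) (he : 2 * nn (D + 1) ≤ e)
    (s : ℕ) (t : T) (p q : List Bool) :
    ∑ f : Fin e → Bool, cf (phi s t) (p ++ List.ofFn f ++ q) • Mw M (List.ofFn f) = 0 := by
  by_cases hlen : p.length + e + q.length = nn s
  · have hpow : ∀ r : ℕ, 0 < nn r := fun r => Nat.pow_pos (by norm_num)
    have hs : D + 1 < s := by
      by_contra hcon
      push Not at hcon
      have h1 : nn s ≤ nn (D + 1) := Nat.pow_le_pow_right (by norm_num) (window_phi_mm hcon)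
      have h2 := hpow (D + 1)
      omega
    obtain ⟨d, rfl⟩ : ∃ d, s = (D + 1) + d := ⟨s - (D + 1), by omega⟩
    refine window M (Submodule.span ℚ (Set.range (phi (D + 1)))) (nn (D + 1)) (hpow _) ?_
      (2 ^ (mm ((D + 1) + d) - mm (D + 1))) (phi ((D + 1) + d) t) (phi_span (D + 1) d t) p q e ?_ he
    · intro g hg
      refine Submodule.span_induction (p := fun g _ => Hom (nn (D + 1)) g ∧ ev M g = 0) ?_ ?_ ?_ ?_
        hg
      · rintro _ ⟨t', rfl⟩
        exact ⟨phi_hom (D + 1) t', ev_phi M D hD t'⟩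
      · refine ⟨fun w hw => absurd rfl hw, map_zero _⟩
      · rintro x y _ _ ⟨hx1, hx2⟩ ⟨hy1, hy2⟩
        refine ⟨fun w hw => ?_, by rw [map_add, hx2, hy2, add_zero]⟩
        have h1 : cf (x + y) w = cf x w + cf y w := rfl
        rw [h1] at hw
        by_cases hx : cf x w = 0
        · rw [hx, zero_add] at hw
          exact hy1 w hw
        · exact hx1 w hx
      · rintro c x _ ⟨hx1, hx2⟩
        refine ⟨fun w hw => ?_, by rw [map_smul, hx2, smul_zero]⟩
        have h1 : cf (c • x) w = c * cf x w := rfl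
        rw [h1] at hw
        exact hx1 w (right_ne_zero_of_mul hw)
    · rw [hlen]
      show 2 ^ mm (D + 1 + d) = 2 ^ mm (D + 1) * 2 ^ (mm (D + 1 + d) - mm (D + 1))
      rw [← pow_add, Nat.add_sub_cancel' (window_phi_mm (Nat.le_add_right _ _))]
  · refine Finset.sum_eq_zero (fun f _ => ?_)
    have h1 : cf (phi s t) (p ++ List.ofFn f ++ q) = 0 := by
      by_contra hcon
      have h2 := phi_hom s t _ hcon
      rw [List.length_append, List.length_append, List.length_ofFn] at h2
      exact hlen h2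
    rw [h1, zero_smul]

end Pool.Agent.Helper501.EP
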