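import Pool.Agent.Helper501.EP.Defs
import Pool.Agent.Helper501.EP.P_window_phi

set_option autoImplicit false

namespace Pool.Agent.Helper501.EP
open Matrix


theorem pen_nilp_pr_add (φ : FA) (p q : List Bool) (a b : FA) :
    pr φ p q (a + b) = pr φ p q a + pr φ p q b := by
  unfold pr
  rw [MonoidAlgebra.coeff_add]
  exact Finsupp.sum_add_index' (by intro; simp) (by intro u x y; ring)

theorem pen_nilp_pr_smul (φ : FA) (p q : List Bool) (c : ℚ) (a : FA) :
    pr φ p q (c • a) = c * pr φ p q a := by
  unfold pr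
  rw [MonoidAlgebra.coeff_smul, Finsupp.sum_smul_index' (by intro; simp), Finsupp.sum,
    Finsupp.sum, Finset.mul_sum]
  refine Finset.sum_congr rfl (fun u _ => ?_)
  rw [smul_eq_mul]
  ring

theorem pen_nilp_pr_wrd (φ : FA) (p q w : List Bool) :
    pr φ p q (wrd w) = cf φ (p ++ w ++ q) := by
  unfold pr wrd
  rw [MonoidAlgebra.coeff_single, Finsupp.sum_single_index (by simp), one_mul]
  rfl

theorem pen_nilp_pr_sum {ι : Type} (s : Finset ι) (φ : FA) (p q : List Bool) (c : ι → ℚ)
    (w : ι → List Bool) :
    pr φ p q (∑ i ∈ s, c i • wrd (w i)) = ∑ i ∈ s, c i * cf φ (p ++ w i ++ q) := by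
  classical
  induction s using Finset.induction_on with
  | empty => simp [pr]
  | insert a s ha ih =>
    rw [Finset.sum_insert ha, Finset.sum_insert ha, pen_nilp_pr_add, pen_nilp_pr_smul,
      pen_nilp_pr_wrd, ih]

theorem pen_nilp_central {A : Type} [Ring A] [Algebra ℚ A] (r : Polynomial ℚ)
    (z : Polynomial A) :
    Polynomial.mapRingHom (algebraMap ℚ A) r * z =
      z * Polynomial.mapRingHom (algebraMap ℚ A) r := by
  induction r using Polynomial.induction_on' with
  | add p q hp hq => rw [map_add, add_mul, mul_add, hp, hq]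
  | monomial n a =>
    rw [Polynomial.coe_mapRingHom, Polynomial.map_monomial, ← Polynomial.C_mul_X_pow_eq_monomial,
      mul_assoc, Polynomial.X_pow_mul, ← mul_assoc, ← mul_assoc]
    congr 1
    ext k
    rw [Polynomial.coeff_C_mul, Polynomial.coeff_mul_C, Algebra.commutes]

theorem pen_nilp_cons {S : Type} [AddCommMonoid S] (e : ℕ) (G : List Bool → S) :
    ∑ f : Fin (e + 1) → Bool, G (List.ofFn f) =
      ∑ a : Bool, ∑ f : Fin e → Bool, G (a :: List.ofFn f) := by
  rw [← (Fin.consEquiv (fun _ => Bool)).sum_comp, Fintype.sum_prod_type]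
  refine Finset.sum_congr rfl (fun a _ => Finset.sum_congr rfl (fun f _ => ?_))
  congr 1
  rw [List.ofFn_succ]
  rfl

theorem pen_nilp_pow {A : Type} [Ring A] [Algebra ℚ A] (y : List Bool → A) (hy0 : y [] = 1)
    (hy : ∀ a w, y [a] * y w = y (a :: w)) {n : Type} [Fintype n] [DecidableEq n]
    (M : Bool → Matrix n n (Polynomial ℚ)) (e : ℕ) (i j : n) :
    ((pen (Polynomial.mapRingHom (algebraMap ℚ A)) (fun a => Polynomial.C (y [a])) M) ^ e) i j =
      ∑ f : Fin e → Bool, Polynomial.mapRingHom (algebraMap ℚ A) (Mw M (List.ofFn f) i j) *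
        Polynomial.C (y (List.ofFn f)) := by
  induction e generalizing i j with
  | zero =>
    by_cases hij : i = j
    · simp [Mw, hy0, Matrix.one_apply, hij]
    · simp [Mw, hy0, Matrix.one_apply, hij]
  | succ e ih =>
    rw [pow_succ', Matrix.mul_apply, pen_nilp_cons e (fun w =>
      Polynomial.mapRingHom (algebraMap ℚ A) (Mw M w i j) * Polynomial.C (y w))]
    have hpen : ∀ k, pen (Polynomial.mapRingHom (algebraMap ℚ A))
        (fun a => Polynomial.C (y [a])) M i k =
        ∑ a : Bool, Polynomial.mapRingHom (algebraMap ℚ A) (M a i k) * Polynomial.C (y [a]) := by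
      intro k
      rw [Fintype.sum_bool, add_comm]
      rfl
    have hterm : ∀ (a : Bool) (w : List Bool) (k : n),
        (Polynomial.mapRingHom (algebraMap ℚ A) (M a i k) * Polynomial.C (y [a])) *
          (Polynomial.mapRingHom (algebraMap ℚ A) (Mw M w k j) * Polynomial.C (y w)) =
        Polynomial.mapRingHom (algebraMap ℚ A) (M a i k * Mw M w k j) *
          Polynomial.C (y (a :: w)) := by
      intro a w k
      rw [← hy a w, Polynomial.C_mul, map_mul]
      calc (Polynomial.mapRingHom (algebraMap ℚ A) (M a i k) * Polynomial.C (y [a])) *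
          (Polynomial.mapRingHom (algebraMap ℚ A) (Mw M w k j) * Polynomial.C (y w))
          = Polynomial.mapRingHom (algebraMap ℚ A) (M a i k) * (Polynomial.C (y [a]) *
            Polynomial.mapRingHom (algebraMap ℚ A) (Mw M w k j)) * Polynomial.C (y w) := by
            simp only [mul_assoc]
        _ = Polynomial.mapRingHom (algebraMap ℚ A) (M a i k) *
            (Polynomial.mapRingHom (algebraMap ℚ A) (Mw M w k j) * Polynomial.C (y [a])) *
              Polynomial.C (y w) := by
            rw [pen_nilp_central (Mw M w k j) (Polynomial.C (y [a]))]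
        _ = _ := by simp only [mul_assoc]
    have hMw : ∀ (a : Bool) (w : List Bool), Mw M (a :: w) i j =
        ∑ k, M a i k * Mw M w k j := by
      intro a w
      unfold Mw
      rw [List.map_cons, List.prod_cons, Matrix.mul_apply]
    have h1 : ∀ k, pen (Polynomial.mapRingHom (algebraMap ℚ A))
        (fun a => Polynomial.C (y [a])) M i k * (pen (Polynomial.mapRingHom (algebraMap ℚ A))
        (fun a => Polynomial.C (y [a])) M ^ e) k j =
        ∑ a : Bool, ∑ f : Fin e → Bool,
          Polynomial.mapRingHom (algebraMap ℚ A) (M a i k * Mw M (List.ofFn f) k j) *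
          Polynomial.C (y (a :: List.ofFn f)) := by
      intro k
      rw [ih, hpen, Finset.sum_mul]
      refine Finset.sum_congr rfl (fun a _ => ?_)
      rw [Finset.mul_sum]
      exact Finset.sum_congr rfl (fun f _ => hterm a _ k)
    rw [Finset.sum_congr rfl (fun k _ => h1 k), Finset.sum_comm]
    refine Finset.sum_congr rfl (fun a _ => ?_)
    rw [Finset.sum_comm]
    refine Finset.sum_congr rfl (fun f _ => ?_)
    rw [hMw, map_sum, Finset.sum_mul]

theorem pen_nilp (E : Ideal FA) [E.IsTwoSided]
    (hE : ∀ r : FA, r ∈ E ↔ ∀ (s : ℕ) (t : T) (p q : List Bool), pr (phi s t) p q r = 0)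
    (n : Type) [Fintype n] [DecidableEq n] (M : Bool → Matrix n n (Polynomial ℚ)) :
    IsNilpotent (pen (Polynomial.mapRingHom (algebraMap ℚ (FA ⧸ E)))
      (fun a => Polynomial.C (Ideal.Quotient.mk E (wrd [a]))) M) := by
  refine ⟨2 * nn (Fintype.card n + 1), ?_⟩
  refine Matrix.ext (fun i j => ?_)
  have hy0 : Ideal.Quotient.mk E (wrd []) = 1 := by
    rw [← map_one (Ideal.Quotient.mk E)]
    rfl
  have hy : ∀ (a : Bool) (w : List Bool), Ideal.Quotient.mk E (wrd [a]) *
      Ideal.Quotient.mk E (wrd w) = Ideal.Quotient.mk E (wrd (a :: w)) := by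
    intro a w
    rw [← map_mul]
    congr 1
    unfold wrd
    rw [MonoidAlgebra.single_mul_single, one_mul]
    rfl
  rw [pen_nilp_pow (fun w => Ideal.Quotient.mk E (wrd w)) hy0 hy M, Matrix.zero_apply]
  ext k
  rw [Polynomial.finset_sum_coeff, Polynomial.coeff_zero]
  have hmem : (∑ f : Fin (2 * nn (Fintype.card n + 1)) → Bool,
      ((Mw M (List.ofFn f) i j).coeff k) • wrd (List.ofFn f)) ∈ E := by
    rw [hE]
    intro s t p q
    rw [pen_nilp_pr_sum]
    have hw := window_phi M (Fintype.card n) le_rfl (2 * nn (Fintype.card n + 1)) le_rfl s t p q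
    have hw2 := congrArg (fun A : Matrix n n (Polynomial ℚ) => (A i j).coeff k) hw
    simp only [Matrix.sum_apply, Matrix.smul_apply, Polynomial.finset_sum_coeff,
      Polynomial.coeff_smul, Matrix.zero_apply, Polynomial.coeff_zero, smul_eq_mul] at hw2
    rw [← hw2]
    exact Finset.sum_congr rfl (fun f _ => mul_comm _ _)
  have hz := Ideal.Quotient.eq_zero_iff_mem.2 hmem
  rw [map_sum] at hz
  rw [← hz]
  refine Finset.sum_congr rfl (fun f _ => ?_)
  rw [Polynomial.coeff_mul_C, Polynomial.coe_mapRingHom, Polynomial.coeff_map, Algebra.smul_def,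
    map_mul]
  rfl

end Pool.Agent.Helper501.EP
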