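import Pool.Agent.Helper501.EP.Defs
import Pool.Agent.Helper501.EP.P_pen_nilp
import Pool.Agent.Helper501.EP.P_lin_unit
import Pool.Agent.Helper501.EP.P_VV_X
import Pool.Agent.Helper501.EP.P_nil_of_unit

set_option autoImplicit false

namespace Pool.Agent.Helper501.EP
open Matrix


theorem qn_central {A : Type} [Ring A] [Algebra ℚ A] (r : Polynomial ℚ) (s : Polynomial A) :
    Polynomial.mapRingHom (algebraMap ℚ A) r * s = s * Polynomial.mapRingHom (algebraMap ℚ A) r := by
  induction r using Polynomial.induction_on' with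
  | add p q hp hq => rw [map_add, add_mul, mul_add, hp, hq]
  | monomial m a =>
    rw [← Polynomial.C_mul_X_pow_eq_monomial, map_mul, map_pow]
    rw [Polynomial.coe_mapRingHom, Polynomial.map_C, Polynomial.map_X]
    have h1 : Polynomial.C (algebraMap ℚ A a) * s = s * Polynomial.C (algebraMap ℚ A a) := by
      ext k
      rw [Polynomial.coeff_C_mul, Polynomial.coeff_mul_C, Algebra.commutes]
    rw [mul_assoc, Polynomial.X_pow_mul, ← mul_assoc, h1, mul_assoc]

theorem Q_nil (E : Ideal FA) [E.IsTwoSided]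
    (hE : ∀ r : FA, r ∈ E ↔ ∀ (s : ℕ) (t : T) (p q : List Bool), pr (phi s t) p q r = 0)
    (ε : (FA ⧸ E) →+* ℚ) (hε : ∀ r : FA, ε (Ideal.Quotient.mk E r) = cf r [])
    (n : Type) [Fintype n] [DecidableEq n] (F : Matrix n n (FA ⧸ E)) (hF : ∀ i j, ε (F i j) = 0) :
    IsNilpotent F := by
  apply nil_of_unit
  choose r hr using fun i j => Ideal.Quotient.mk_surjective (F i j)
  have h0 : ∀ i j, cf (r i j) [] = 0 := by
    intro i j
    rw [← hε, hr, hF]
  choose d hd using fun i j => VV_X E (r i j) (h0 i j)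
  refine lin_unit (Polynomial.mapRingHom (algebraMap ℚ (FA ⧸ E))) qn_central
    (fun a => Polynomial.C (Ideal.Quotient.mk E (wrd [a])))
    (fun m _ _ M => (pen_nilp E hE m M).isUnit_one_sub)
    (Finset.univ.sup fun p : n × n => d p.1 p.2) n _ (fun i j => ?_)
  have h1 := hd i j _ (Finset.le_sup (f := fun p : n × n => d p.1 p.2) (Finset.mem_univ (i, j)))
  rw [hr] at h1
  exact h1

end Pool.Agent.Helper501.EP
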