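import Pool.Agent.Helper501.EP.Defs

set_option autoImplicit false

namespace Pool.Agent.Helper501.EP
open Matrix


theorem bw_PF {S : Type} [Ring S] (x : Bool → S) (n : ℕ) (t : T) :
    ((bw n t).map x).prod = (if t.1 = true then (PF (x false) (x true) n).2
      else (PF (x false) (x true) n).1) * x t.2 := by
  induction n generalizing t with
  | zero =>
    simp only [bw, List.map_cons, List.map_nil, List.prod_cons, List.prod_nil, mul_one, PF]
    split_ifs <;> rw [one_mul]
  | succ n ih =>
    obtain ⟨a, b⟩ := t
    simp only [bw, List.map_append, List.prod_append, ih, PF]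
    cases a <;> simp [mul_assoc]

end Pool.Agent.Helper501.EP
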