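import Pool.Agent.Helper501.EP.Defs
import Pool.Agent.Helper501.EP.P_phi_hom

set_option autoImplicit false

namespace Pool.Agent.Helper501.EP
open Matrix


theorem E_comp (E : Ideal FA)
    (hE : ∀ r : FA, r ∈ E ↔ ∀ (s : ℕ) (t : T) (p q : List Bool), pr (phi s t) p q r = 0)
    (r : FA) (hr : r ∈ E) (d : ℕ) :
    (MonoidAlgebra.ofCoeff (r.coeff.filter fun u => (FreeMonoid.toList u).length = d) : FA) ∈ E := by
  rw [hE]
  intro s t p q
  have h0 := (hE r).1 hr s t p q
  have hz : ∀ u : W, p.length + (FreeMonoid.toList u).length + q.length ≠ nn s →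
      cf (phi s t) (p ++ FreeMonoid.toList u ++ q) = 0 := by
    intro u hu
    by_contra hne
    apply hu
    have := phi_hom s t _ hne
    rw [List.length_append, List.length_append] at this
    exact this
  have key : pr (phi s t) p q
      (MonoidAlgebra.ofCoeff (r.coeff.filter fun u => (FreeMonoid.toList u).length = d) : FA) =
      ∑ u ∈ r.coeff.support, if (FreeMonoid.toList u).length = d then
        r.coeff u * cf (phi s t) (p ++ FreeMonoid.toList u ++ q) else 0 := by
    unfold pr
    rw [← Finset.sum_filter]
    show (r.coeff.filter fun u => (FreeMonoid.toList u).length = d).sum _ = _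
    rw [Finsupp.sum, Finsupp.support_filter]
    apply Finset.sum_congr rfl
    intro u hu
    rw [Finset.mem_filter] at hu
    rw [Finsupp.filter_apply_pos (fun u : W => (FreeMonoid.toList u).length = d) r.coeff hu.2]
  rw [key]
  by_cases hd : p.length + d + q.length = nn s
  · refine Eq.trans ?_ h0
    unfold pr
    rw [Finsupp.sum]
    apply Finset.sum_congr rfl
    intro u _
    split_ifs with h
    · rfl
    · rw [hz u (fun h' => h (by omega)), mul_zero]
  · apply Finset.sum_eq_zero
    intro u _
    split_ifs with h
    · rw [hz u (by rw [h]; exact hd), mul_zero]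
    · rfl

end Pool.Agent.Helper501.EP
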