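import Pool.Agent.Helper501.EP.Defs
import Pool.Agent.Helper501.EP.P_E_comp

set_option autoImplicit false

namespace Pool.Agent.Helper501.EP
open Matrix


noncomputable def dcomp (d : ℕ) (r : FA) : FA :=
  MonoidAlgebra.ofCoeff (r.coeff.filter fun u => (FreeMonoid.toList u).length = d)

theorem dcomp_zero (d : ℕ) : dcomp d 0 = 0 := by
  unfold dcomp
  rw [MonoidAlgebra.coeff_zero, Finsupp.filter_zero, MonoidAlgebra.ofCoeff_zero]

theorem dcomp_add (d : ℕ) (r r' : FA) : dcomp d (r + r') = dcomp d r + dcomp d r' := by
  unfold dcomp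
  rw [MonoidAlgebra.coeff_add, Finsupp.filter_add, MonoidAlgebra.ofCoeff_add]

theorem dcomp_single (d : ℕ) (u : W) (c : ℚ) : dcomp d (MonoidAlgebra.single u c) =
    if (FreeMonoid.toList u).length = d then MonoidAlgebra.single u c else 0 := by
  unfold dcomp
  rw [MonoidAlgebra.coeff_single]
  split_ifs with h
  · rw [Finsupp.filter_single_of_pos (p := fun u : W => (FreeMonoid.toList u).length = d) h]
    rfl
  · rw [Finsupp.filter_single_of_neg (p := fun u : W => (FreeMonoid.toList u).length = d) h]
    rfl

theorem sum_dcomp (r : FA) : ∃ S : Finset ℕ, r = ∑ d ∈ S, dcomp d r := by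
  classical
  refine ⟨r.coeff.support.image (fun u => (FreeMonoid.toList u).length), ?_⟩
  apply MonoidAlgebra.coeff_injective
  rw [MonoidAlgebra.coeff_sum]
  ext u
  rw [Finsupp.finsetSum_apply]
  by_cases hu : u ∈ r.coeff.support
  · rw [Finset.sum_eq_single (FreeMonoid.toList u).length]
    · show _ = (r.coeff.filter _) u
      rw [Finsupp.filter_apply_pos (p := fun v : W => (FreeMonoid.toList v).length = (FreeMonoid.toList u).length) _ rfl]
    · intro d _ hd
      show (r.coeff.filter _) u = 0
      rw [Finsupp.filter_apply_neg (p := fun v : W => (FreeMonoid.toList v).length = d) _ (fun h => hd h.symm)]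
    · intro h
      exact absurd (Finset.mem_image_of_mem _ hu) h
  · have h0 : r.coeff u = 0 := Finsupp.notMem_support_iff.mp hu
    rw [h0]
    symm
    apply Finset.sum_eq_zero
    intro d _
    show (r.coeff.filter _) u = 0
    rw [Finsupp.filter_apply]
    split_ifs
    · exact h0
    · rfl

theorem exists_delta (E : Ideal FA) [E.IsTwoSided]
    (hE : ∀ r : FA, r ∈ E ↔ ∀ (s : ℕ) (t : T) (p q : List Bool), pr (phi s t) p q r = 0) :
    ∃ δ : (FA ⧸ E) →+* Polynomial (FA ⧸ E),
      (∀ (r : FA) (k : ℕ), (δ (Ideal.Quotient.mk E r)).coeff k =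
        if 3 ∣ k then Ideal.Quotient.mk E
          (MonoidAlgebra.ofCoeff (r.coeff.filter fun u => (FreeMonoid.toList u).length = k / 3) : FA)
        else 0) ∧ Function.Injective δ := by
  let x : Bool → FA ⧸ E := fun a => Ideal.Quotient.mk E (MonoidAlgebra.single (FreeMonoid.of a) 1)
  let F : W →* Polynomial (FA ⧸ E) := FreeMonoid.lift fun a => Polynomial.X ^ 3 * Polynomial.C (x a)
  have hF : ∀ u : W, F u = Polynomial.X ^ (3 * (FreeMonoid.toList u).length) *
      Polynomial.C (Ideal.Quotient.mk E (MonoidAlgebra.single u 1)) := by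
    intro u
    induction u using FreeMonoid.inductionOn' with
    | one =>
      have h0 : (FreeMonoid.toList (1 : W)).length = 0 := rfl
      rw [map_one F, ← MonoidAlgebra.one_def, map_one (Ideal.Quotient.mk E), map_one Polynomial.C,
        h0, mul_zero, pow_zero, one_mul]
    | of_mul a v ih =>
      rw [map_mul, ih]
      have h1 : F (FreeMonoid.of a) = Polynomial.X ^ 3 * Polynomial.C (x a) := FreeMonoid.lift_eval_of _ _
      rw [h1]
      have h2 : (MonoidAlgebra.single (FreeMonoid.of a * v) (1 : ℚ) : FA) =
          MonoidAlgebra.single (FreeMonoid.of a) 1 * MonoidAlgebra.single v 1 := by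
        rw [MonoidAlgebra.single_mul_single, one_mul]
      have h3 : (FreeMonoid.toList (FreeMonoid.of a * v)).length = (FreeMonoid.toList v).length + 1 := by
        rw [FreeMonoid.toList_of_mul]; rfl
      rw [h3, h2, map_mul (Ideal.Quotient.mk E), map_mul Polynomial.C]
      show Polynomial.X ^ 3 * Polynomial.C (x a) * _ =
        Polynomial.X ^ (3 * ((FreeMonoid.toList v).length + 1)) * (Polynomial.C (x a) * _)
      rw [mul_assoc (Polynomial.X ^ 3), ← mul_assoc (Polynomial.C (x a)),
        ← (Polynomial.X_pow_mul (n := 3 * (FreeMonoid.toList v).length) (p := Polynomial.C (x a))),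
        mul_assoc, ← mul_assoc (Polynomial.X ^ 3), ← pow_add]
      congr 2
      ring
  let D0 : FA →+* Polynomial (FA ⧸ E) := (MonoidAlgebra.lift ℚ (Polynomial (FA ⧸ E)) W F).toRingHom
  have hD0 : ∀ u c, D0 (MonoidAlgebra.single u c) =
      Polynomial.X ^ (3 * (FreeMonoid.toList u).length) *
      Polynomial.C (Ideal.Quotient.mk E (MonoidAlgebra.single u c)) := by
    intro u c
    have h1 : D0 (MonoidAlgebra.single u c) = c • F u := MonoidAlgebra.lift_single _ _ _
    have h2 : (MonoidAlgebra.single u c : FA) = c • MonoidAlgebra.single u 1 := by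
      rw [MonoidAlgebra.smul_single, smul_eq_mul, mul_one]
    rw [h1, hF, h2]
    have h3 : Ideal.Quotient.mk E (c • MonoidAlgebra.single u (1 : ℚ)) =
      c • Ideal.Quotient.mk E (MonoidAlgebra.single u 1) := rfl
    rw [h3, ← Polynomial.smul_C, mul_smul_comm]
  have hcoef : ∀ (r : FA) (k : ℕ), (D0 r).coeff k =
      if 3 ∣ k then Ideal.Quotient.mk E (dcomp (k / 3) r) else 0 := by
    intro r
    induction r using MonoidAlgebra.induction_linear with
    | zero =>
      intro k
      rw [map_zero, Polynomial.coeff_zero, dcomp_zero, map_zero, ite_self]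
    | add r r' h1 h2 =>
      intro k
      rw [map_add, Polynomial.coeff_add, h1, h2, dcomp_add, map_add]
      split_ifs
      · rfl
      · rw [add_zero]
    | single u c =>
      intro k
      rw [hD0, dcomp_single, Polynomial.coeff_X_pow_mul', Polynomial.coeff_C]
      by_cases hk : 3 ∣ k
      · obtain ⟨m, rfl⟩ := hk
        rw [if_pos (Dvd.intro _ rfl), Nat.mul_div_cancel_left _ (by norm_num : 0 < 3)]
        by_cases hm : (FreeMonoid.toList u).length = m
        · rw [if_pos hm, if_pos (by rw [hm]), if_pos (by rw [hm, Nat.sub_self])]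
        · rw [if_neg hm, map_zero]
          split_ifs with h1 h2
          · omega
          · rfl
          · rfl
      · rw [if_neg hk]
        split_ifs with h1 h2
        · exfalso
          apply hk
          have : k = 3 * (FreeMonoid.toList u).length := by omega
          rw [this]; exact Dvd.intro _ rfl
        · rfl
        · rfl
  have hker : ∀ r ∈ E, D0 r = 0 := by
    intro r hr
    ext k
    rw [hcoef, Polynomial.coeff_zero]
    split_ifs
    · exact Ideal.Quotient.eq_zero_iff_mem.mpr (E_comp E hE r hr (k / 3))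
    · rfl
  refine ⟨Ideal.Quotient.lift E D0 hker, ?_, ?_⟩
  · intro r k
    rw [Ideal.Quotient.lift_mk, hcoef]
    rfl
  · rw [injective_iff_map_eq_zero]
    intro q hq
    obtain ⟨r, rfl⟩ := Ideal.Quotient.mk_surjective q
    rw [Ideal.Quotient.lift_mk] at hq
    rw [Ideal.Quotient.eq_zero_iff_mem]
    obtain ⟨S, hS⟩ := sum_dcomp r
    rw [hS]
    apply Ideal.sum_mem
    intro d _
    rw [← Ideal.Quotient.eq_zero_iff_mem]
    have h1 := hcoef r (3 * d)
    rw [hq, Polynomial.coeff_zero, if_pos (Dvd.intro _ rfl),
      Nat.mul_div_cancel_left _ (by norm_num : 0 < 3)] at h1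
    exact h1.symm

end Pool.Agent.Helper501.EP
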