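import Pool.Agent.Helper501.EP.Defs
import Pool.Agent.Helper501.EP.P_phi_bw
import Pool.Agent.Helper501.EP.P_E_comp

set_option autoImplicit false

namespace Pool.Agent.Helper501.EP
open Matrix


theorem E_one (E : Ideal FA)
    (hE : ∀ r : FA, r ∈ E ↔ ∀ (s : ℕ) (t : T) (p q : List Bool), pr (phi s t) p q r = 0)
    (r : FA) (hr : r ∈ E) : cf r [] = 0 := by
  classical
  have h0 := (hE _).1 (E_comp E hE r hr 0) 0 (false, false) (bw (mm 0) (false, false)) []
  have h1 : (r.coeff.filter fun u => (FreeMonoid.toList u).length = 0) =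
      Finsupp.single (1 : W) (r.coeff 1) := by
    ext u
    by_cases hu : u = 1
    · subst hu
      rw [Finsupp.filter_apply, if_pos (by simp), Finsupp.single_eq_same]
    · have h2 : (FreeMonoid.toList u).length ≠ 0 := by
        intro h3
        apply hu
        have h4 := List.eq_nil_of_length_eq_zero h3
        exact FreeMonoid.toList.injective h4
      rw [Finsupp.filter_apply, if_neg h2, Finsupp.single_apply, if_neg (Ne.symm hu)]
  unfold pr at h0
  rw [MonoidAlgebra.coeff_ofCoeff, h1, Finsupp.sum_single_index (by simp)] at h0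
  have h5 : bw (mm 0) (false, false) ++ FreeMonoid.toList (1 : W) ++ [] = bw (mm 0) (false, false) := by
    simp
  rw [h5, phi_bw, if_pos rfl, mul_one] at h0
  exact h0

end Pool.Agent.Helper501.EP
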