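import Pool.Agent.Helper501.EP.Defs
import Pool.Agent.Helper501.EP.P_E_one

set_option autoImplicit false

namespace Pool.Agent.Helper501.EP
open Matrix


theorem exists_eps (E : Ideal FA) [E.IsTwoSided]
    (hE : ∀ r : FA, r ∈ E ↔ ∀ (s : ℕ) (t : T) (p q : List Bool), pr (phi s t) p q r = 0) :
    ∃ ε : (FA ⧸ E) →+* ℚ, ∀ r : FA, ε (Ideal.Quotient.mk E r) = cf r [] := by
  classical
  have hf : ∀ r : FA, (MonoidAlgebra.lift ℚ ℚ W (FreeMonoid.lift fun _ => 0)) r = cf r [] := by
    intro r
    induction r using MonoidAlgebra.induction_linear with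
    | zero => simp [cf]
    | add f g hf hg =>
      rw [map_add, hf, hg]
      simp [cf]
    | single w c =>
      rw [MonoidAlgebra.lift_single]
      unfold cf
      rw [MonoidAlgebra.coeff_single_apply]
      rw [FreeMonoid.lift_apply]
      rcases hw : FreeMonoid.toList w with _ | ⟨a, l⟩
      · have : w = FreeMonoid.ofList [] := by rw [← hw]; simp
        rw [if_pos this]
        simp
      · have : w ≠ FreeMonoid.ofList [] := by
          intro h
          rw [h] at hw
          simp at hw
        rw [if_neg this]
        simp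
  refine ⟨Ideal.Quotient.lift E
    (MonoidAlgebra.lift ℚ ℚ W (FreeMonoid.lift fun _ => 0)).toRingHom ?_, fun r => ?_⟩
  · intro a ha
    have := E_one E hE a ha
    rw [← hf a] at this
    exact this
  · rw [Ideal.Quotient.lift_mk]
    exact hf r

end Pool.Agent.Helper501.EP
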