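import Pool.Agent.Helper501.EP.P_exists_E
import Pool.Agent.Helper501.EP.P_exists_eps
import Pool.Agent.Helper501.EP.P_exists_delta
import Pool.Agent.Helper501.EP.P_Q_nil
import Pool.Agent.Helper501.EP.P_E_bw
import Pool.Agent.Helper501.EP.P_bw_PF
set_option autoImplicit false

namespace Pool.Agent.Helper501.EP

open Matrix

theorem exists_Q : ∃ (Q : Type) (_ : Ring Q) (_ : Algebra ℚ Q) (x y : Q) (ε : Q →+* ℚ)
    (δ : Q →+* Polynomial Q),
    δ x = Polynomial.X ^ 3 * Polynomial.C x ∧ δ y = Polynomial.X ^ 3 * Polynomial.C y ∧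
    ε x = 0 ∧ ε y = 0 ∧
    Function.Injective δ ∧ (∀ (z : Q) (k : ℕ), ¬ 3 ∣ k → (δ z).coeff k = 0) ∧
    (∀ z : Q, ε z = 0 → (δ z).coeff 0 = 0) ∧
    (∀ F : Matrix (Fin 3) (Fin 3) Q, (∀ i j, ε (F i j) = 0) → IsNilpotent F) ∧
    (∀ n, (PF x y n).1 ≠ 0) := by
  classical
  obtain ⟨E, hts, hE⟩ := exists_E
  have := hts
  obtain ⟨ε, hε⟩ := exists_eps E hE
  obtain ⟨δ, hδ, hinj⟩ := exists_delta E hE
  have hx : ∀ a : Bool, δ (Ideal.Quotient.mk E (wrd [a])) =
      Polynomial.X ^ 3 * Polynomial.C (Ideal.Quotient.mk E (wrd [a])) := by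
    intro a
    ext k
    rw [hδ, Polynomial.coeff_X_pow_mul']
    rw [Polynomial.coeff_C]
    have hcomp : ∀ d : ℕ, (MonoidAlgebra.ofCoeff ((wrd [a]).coeff.filter
        fun u => (FreeMonoid.toList u).length = d) : FA) = if d = 1 then wrd [a] else 0 := by
      intro d
      unfold wrd
      apply MonoidAlgebra.coeff_injective
      rw [MonoidAlgebra.coeff_ofCoeff, MonoidAlgebra.coeff_single]
      by_cases hd : d = 1
      · subst hd
        rw [if_pos rfl, MonoidAlgebra.coeff_single]
        rw [Finsupp.filter_single_of_pos]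
        simp
      · rw [if_neg hd]
        rw [Finsupp.filter_single_of_neg]
        · simp
        · simp; omega
    by_cases h3 : 3 ∣ k
    · rw [if_pos h3, hcomp]
      obtain ⟨m, rfl⟩ := h3
      have : 3 * m / 3 = m := by omega
      rw [this]
      by_cases hm : m = 1
      · subst hm
        simp
      · rw [if_neg hm]
        by_cases hm0 : m = 0
        · subst hm0
          simp
        · have h1 : 3 ≤ 3 * m := by omega
          have h2 : ¬ (3 * m - 3 = 0) := by omega
          rw [if_pos h1, if_neg h2]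
          simp
    · rw [if_neg h3]
      split_ifs with h1 h2
      · exfalso; apply h3; exact ⟨1, by omega⟩
      · rfl
      · rfl
  refine ⟨FA ⧸ E, inferInstance, inferInstance, Ideal.Quotient.mk E (wrd [false]),
    Ideal.Quotient.mk E (wrd [true]), ε, δ, hx false, hx true, ?_, ?_, hinj, ?_, ?_, ?_, ?_⟩
  · rw [hε]; simp [cf, wrd, MonoidAlgebra.coeff_single, Finsupp.single_apply]
  · rw [hε]; simp [cf, wrd, MonoidAlgebra.coeff_single, Finsupp.single_apply]
  · intro z k hk
    obtain ⟨r, rfl⟩ := Ideal.Quotient.mk_surjective z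
    rw [hδ, if_neg hk]
  · intro z hz
    obtain ⟨r, rfl⟩ := Ideal.Quotient.mk_surjective z
    rw [hδ, if_pos (dvd_zero 3)]
    have h0 : (MonoidAlgebra.ofCoeff (r.coeff.filter
        fun u => (FreeMonoid.toList u).length = 0 / 3) : FA) = 0 := by
      apply MonoidAlgebra.coeff_injective
      rw [MonoidAlgebra.coeff_ofCoeff]
      ext u
      rw [Finsupp.filter_apply]
      split_ifs with hu
      · rw [hε] at hz
        have : u = 1 := by
          apply FreeMonoid.toList.injective
          simpa using hu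
        rw [this]
        exact hz
      · simp
    rw [h0, map_zero]
  · intro F hF
    exact Q_nil E hE ε hε (Fin 3) F hF
  · intro n hn
    apply E_bw E hE n
    rw [← Ideal.Quotient.eq_zero_iff_mem]
    have h1 := bw_PF (fun a : Bool => Ideal.Quotient.mk E (wrd [a])) n (false, false)
    have h2 : ∀ w : List Bool, Ideal.Quotient.mk E (wrd w) =
        (w.map (fun a : Bool => Ideal.Quotient.mk E (wrd [a]))).prod := by
      intro w
      induction w with
      | nil => simp [wrd]; rfl
      | cons a w ih =>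
        rw [List.map_cons, List.prod_cons, ← ih, ← map_mul]
        congr 1
        unfold wrd
        rw [MonoidAlgebra.single_mul_single]
        simp
    rw [h2, h1]
    simp [hn]

end Pool.Agent.Helper501.EP
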