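import Pool.Agent.Helper501.EP.Defs

set_option autoImplicit false

namespace Pool.Agent.Helper501.EP
open Matrix


theorem F1_nil {S : Type} [Ring S] (ε : S →+* ℚ)
    (hnil : ∀ F : Matrix (Fin 3) (Fin 3) S, (∀ i j, ε (F i j) = 0) → IsNilpotent F)
    (t : Matrix (Fin 3) (Fin 3) S) (ht : F1 ε t) : IsNilpotent t := by
  have h00 : ε (t 0 0) = 0 := ht 0 0 (by decide)
  have h10 : ε (t 1 0) = 0 := ht 1 0 (by decide)
  have h11 : ε (t 1 1) = 0 := ht 1 1 (by decide)
  have h20 : ε (t 2 0) = 0 := ht 2 0 (by decide)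
  have h21 : ε (t 2 1) = 0 := ht 2 1 (by decide)
  have h22 : ε (t 2 2) = 0 := ht 2 2 (by decide)
  have h3 : IsNilpotent (t ^ 3) := by
    apply hnil
    intro i j
    have e3 : t ^ 3 = t * t * t := by rw [pow_succ, pow_two]
    rw [e3]
    simp only [Matrix.mul_apply, Fin.sum_univ_three, map_add, map_mul]
    fin_cases i <;> fin_cases j <;> simp [h00, h10, h11, h20, h21, h22]
  exact IsNilpotent.of_pow h3

end Pool.Agent.Helper501.EP
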