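import Pool.Agent.Helper501.EP.Defs

set_option autoImplicit false

namespace Pool.Agent.Helper501.EP
open Matrix


theorem F1_ops {S : Type} [Ring S] (ε : S →+* ℚ) :
    F1 ε (0 : Matrix (Fin 3) (Fin 3) S) ∧
    (∀ a b, F1 ε a → F1 ε b → F1 ε (a + b)) ∧ (∀ a b, F1 ε a → F1 ε b → F1 ε (a * b)) ∧
    (∀ a, F1 ε a → F1 ε (-a)) ∧ F1 ε (e12 : Matrix (Fin 3) (Fin 3) S) ∧
    F1 ε (e23 : Matrix (Fin 3) (Fin 3) S) ∧
    (∀ x y w : S, ε x = 0 → ε y = 0 → F1 ε (cwr x y w)) := by
  refine ⟨?_, ?_, ?_, ?_, ?_, ?_, ?_⟩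
  · intro i j _
    exact map_zero ε
  · intro a b ha hb i j hij
    rw [Matrix.add_apply, map_add, ha i j hij, hb i j hij, add_zero]
  · intro a b ha hb i j hij
    rw [Matrix.mul_apply, map_sum]
    refine Finset.sum_eq_zero fun l _ => ?_
    rw [map_mul]
    rcases le_or_gt l i with h | h
    · rw [ha i l h, zero_mul]
    · rw [hb l j (hij.trans h.le), mul_zero]
  · intro a ha i j hij
    rw [Matrix.neg_apply, map_neg, ha i j hij, neg_zero]
  · intro i j hij
    fin_cases i <;> fin_cases j <;> simp_all [e12]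
  · intro i j hij
    fin_cases i <;> fin_cases j <;> simp_all [e23]
  · intro x y w hx hy i j _
    fin_cases i <;> fin_cases j <;> simp [cwr, hx, hy]

end Pool.Agent.Helper501.EP
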