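import Pool.Agent.Helper501.EP.Defs

set_option autoImplicit false

namespace Pool.Agent.Helper501.EP
open Matrix


theorem group_cone_order (G : Type) [Group G] (P : Set G) (h1 : (1 : G) ∉ P)
    (hmul : ∀ a ∈ P, ∀ b ∈ P, a * b ∈ P) (hconj : ∀ a ∈ P, ∀ g : G, g⁻¹ * a * g ∈ P)
    (htot : ∀ a : G, a ≠ 1 → a ∈ P ∨ a⁻¹ ∈ P) :
    ∃ L : LinearOrder G, ∀ a b c : G, L.le a b → L.le (c * a) (c * b) ∧ L.le (a * c) (b * c) := by
  classical
  let po : PartialOrder G :=
    { le := fun a b => a = b ∨ a⁻¹ * b ∈ P
      le_refl := fun a => Or.inl rfl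
      le_trans := by
        rintro a b c (rfl | hab) (rfl | hbc)
        · exact Or.inl rfl
        · exact Or.inr hbc
        · exact Or.inr hab
        · right
          have := hmul _ hab _ hbc
          have e : a⁻¹ * b * (b⁻¹ * c) = a⁻¹ * c := by group
          rwa [e] at this
      le_antisymm := by
        rintro a b (rfl | hab) (h | hba)
        · rfl
        · rfl
        · exact h.symm
        · exfalso
          apply h1
          have := hmul _ hab _ hba
          have e : a⁻¹ * b * (b⁻¹ * a) = 1 := by group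
          rwa [e] at this }
  have htotal : ∀ a b : G, po.le a b ∨ po.le b a := by
    intro a b
    by_cases hab : a = b
    · exact Or.inl (Or.inl hab)
    · have hne : a⁻¹ * b ≠ 1 := by
        intro h
        exact hab (inv_mul_eq_one.1 h)
      rcases htot _ hne with h | h
      · exact Or.inl (Or.inr h)
      · right
        right
        have e : (a⁻¹ * b)⁻¹ = b⁻¹ * a := by group
        rwa [e] at h
  let L : LinearOrder G :=
    { po with
      le_total := htotal
      toDecidableLE := Classical.decRel _ }
  refine ⟨L, fun a b c hab => ?_⟩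
  have hab' : a = b ∨ a⁻¹ * b ∈ P := hab
  have hl : (c * a = c * b ∨ (c * a)⁻¹ * (c * b) ∈ P) := by
    rcases hab' with rfl | h
    · exact Or.inl rfl
    · right
      have e : (c * a)⁻¹ * (c * b) = a⁻¹ * b := by group
      rw [e]
      exact h
  have hr : (a * c = b * c ∨ (a * c)⁻¹ * (b * c) ∈ P) := by
    rcases hab' with rfl | h
    · exact Or.inl rfl
    · right
      have e : (a * c)⁻¹ * (b * c) = c⁻¹ * (a⁻¹ * b) * c := by group
      rw [e]
      exact hconj _ h c
  exact ⟨hl, hr⟩

end Pool.Agent.Helper501.EP
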