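import Pool.Agent.Helper501.EP.Defs

set_option autoImplicit false

namespace Pool.Agent.Helper501.EP
open Matrix


theorem order_cone (V : Type) [AddCommGroup V] [Module ℚ V] :
    ∃ P : Set V, (0 : V) ∉ P ∧ (∀ a ∈ P, ∀ b ∈ P, a + b ∈ P) ∧ (∀ a : V, a ≠ 0 → a ∈ P ∨ -a ∈ P) := by
  classical
  let B := Module.Basis.ofVectorSpace ℚ V
  letI : LinearOrder (Module.Basis.ofVectorSpaceIndex ℚ V) := linearOrderOfSTO WellOrderingRel
  refine ⟨{v | 0 < toLex (B.repr v)}, ?_, ?_, ?_⟩
  · intro h
    change 0 < toLex (B.repr 0) at h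
    rw [map_zero, toLex_zero] at h
    exact lt_irrefl _ h
  · intro a ha b hb
    change 0 < toLex (B.repr (a + b))
    rw [map_add, toLex_add]
    exact add_pos ha hb
  · intro a ha
    have hne : toLex (B.repr a) ≠ 0 := by
      intro h
      apply ha
      have h1 : B.repr a = 0 := h
      exact (LinearEquiv.map_eq_zero_iff _).1 h1
    rcases lt_or_gt_of_ne hne with h | h
    · right
      change 0 < toLex (B.repr (-a))
      rw [map_neg, toLex_neg]
      exact neg_pos.2 h
    · left
      exact h

end Pool.Agent.Helper501.EP
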