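import Pool.Agent.Helper501.EP.Defs
import Pool.Agent.Helper501.EP.P_order_cone
import Pool.Agent.Helper501.EP.P_group_cone_order

set_option autoImplicit false

namespace Pool.Agent.Helper501.EP
open Matrix


theorem central_order (G : Type) [Group G] (V : Type) [AddCommGroup V] [Module ℚ V]
    (N : ℕ → G → Prop) (c : ℕ → G → V) (h0 : ∀ g, N 0 g) (hs : ∀ w g, N (w + 1) g → N w g)
    (hsep : ∀ g, (∀ w, N w g) → g = 1) (h1 : ∀ w, N w 1)
    (hmul : ∀ w g h, N w g → N w h → N w (g * h) ∧ c w (g * h) = c w g + c w h)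
    (hinv : ∀ w g, N w g → N w g⁻¹)
    (hker : ∀ w g, N w g → (c w g = 0 ↔ N (w + 1) g))
    (hconj : ∀ w g h, N w g → N w (h⁻¹ * g * h) ∧ c w (h⁻¹ * g * h) = c w g) :
    ∃ L : LinearOrder G, ∀ a b c : G, L.le a b → L.le (c * a) (c * b) ∧ L.le (a * c) (b * c) := by
  classical
  obtain ⟨P0, hP0, hPadd, hPtot⟩ := order_cone V
  have hanti : ∀ (g : G) (w w' : ℕ), w' ≤ w → N w g → N w' g := by
    intro g w w' hle
    induction w, hle using Nat.le_induction with
    | base => exact fun h => h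
    | succ n hn ih => exact fun h => ih (hs _ _ h)
  have hc1 : ∀ w, c w 1 = 0 := fun w => (hker w 1 (h1 w)).2 (h1 (w + 1))
  have hlt : ∀ (g : G) (w w' : ℕ), w < w' → N w' g → N w g ∧ c w g = 0 := by
    intro g w w' hww h
    have h2 : N (w + 1) g := hanti g w' (w + 1) hww h
    exact ⟨hs _ _ h2, (hker w g (hs _ _ h2)).2 h2⟩
  refine group_cone_order G {g | ∃ w, N w g ∧ c w g ∈ P0} ?_ ?_ ?_ ?_
  · rintro ⟨w, hw, hc⟩
    rw [hc1] at hc
    exact hP0 hc
  · rintro a ⟨w, hw, hc⟩ b ⟨w', hw', hc'⟩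
    rcases lt_trichotomy w w' with h | h | h
    · obtain ⟨h2, h3⟩ := hlt b w w' h hw'
      refine ⟨w, (hmul w a b hw h2).1, ?_⟩
      rw [(hmul w a b hw h2).2, h3, add_zero]
      exact hc
    · subst h
      refine ⟨w, (hmul w a b hw hw').1, ?_⟩
      rw [(hmul w a b hw hw').2]
      exact hPadd _ hc _ hc'
    · obtain ⟨h2, h3⟩ := hlt a w' w h hw
      refine ⟨w', (hmul w' a b h2 hw').1, ?_⟩
      rw [(hmul w' a b h2 hw').2, h3, zero_add]
      exact hc'
  · rintro a ⟨w, hw, hc⟩ g
    refine ⟨w, (hconj w a g hw).1, ?_⟩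
    rw [(hconj w a g hw).2]
    exact hc
  · intro a ha
    have hex : ∃ w, ¬ N w a := by
      by_contra hcon
      push Not at hcon
      exact ha (hsep a hcon)
    have hsp := Nat.find_spec hex
    have hmin := fun m (hm : m < Nat.find hex) => Nat.find_min hex hm
    rcases hk : Nat.find hex with _ | k
    · rw [hk] at hsp
      exact absurd (h0 a) hsp
    · rw [hk] at hsp
      have hNk : N k a := by
        have := hmin k (by omega)
        push Not at this
        exact this
      have hne : c k a ≠ 0 := fun h => hsp ((hker k a hNk).1 h)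
      rcases hPtot (c k a) hne with h | h
      · exact Or.inl ⟨k, hNk, h⟩
      · refine Or.inr ⟨k, hinv k a hNk, ?_⟩
        have h3 := (hmul k a a⁻¹ hNk (hinv k a hNk)).2
        rw [mul_inv_cancel, hc1] at h3
        have : c k a⁻¹ = -(c k a) := by
          rw [eq_comm, neg_eq_iff_add_eq_zero]
          exact h3.symm
        rw [this]
        exact h
end Pool.Agent.Helper501.EP
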