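import Pool.Agent.Helper501.EP.Defs

set_option autoImplicit false

namespace Pool.Agent.Helper501.EP
open Matrix


theorem wt_one_of_F1 {S : Type} [Ring S] (ε : S →+* ℚ) (δ : S →+* Polynomial S)
    (h3 : ∀ (z : S) (k : ℕ), ¬ 3 ∣ k → (δ z).coeff k = 0)
    (h0 : ∀ z : S, ε z = 0 → (δ z).coeff 0 = 0) (t : Matrix (Fin 3) (Fin 3) S) (ht : F1 ε t) :
    wt δ 1 t := by
  intro i j k hk
  have hi := i.2
  have hk2 : k ≤ 2 := by omega
  interval_cases k
  · exact h0 _ (ht i j (by rw [Fin.le_def]; omega))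
  · exact h3 _ _ (by norm_num)
  · exact h3 _ _ (by norm_num)

end Pool.Agent.Helper501.EP
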