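import Pool.Agent.Helper501.EP.Defs

set_option autoImplicit false

namespace Pool.Agent.Helper501.EP
open Matrix


theorem wt_ops {S : Type} [Ring S] (δ : S →+* Polynomial S) (w : ℕ) :
    wt δ w (0 : Matrix (Fin 3) (Fin 3) S) ∧
    (∀ a b, wt δ w a → wt δ w b → wt δ w (a + b)) ∧ (∀ a, wt δ w a → wt δ w (-a)) ∧
    (∀ a, wt δ (w + 1) a → wt δ w a) ∧
    (∀ (v : ℕ) (a b : Matrix (Fin 3) (Fin 3) S), wt δ w a → wt δ v b → wt δ (w + v) (a * b)) := by
  refine ⟨?_, ?_, ?_, ?_, ?_⟩
  · intro i j k _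
    rw [Matrix.zero_apply, map_zero, Polynomial.coeff_zero]
  · intro a b ha hb i j k h
    rw [Matrix.add_apply, map_add, Polynomial.coeff_add, ha i j k h, hb i j k h, add_zero]
  · intro a ha i j k h
    rw [Matrix.neg_apply, map_neg, Polynomial.coeff_neg, ha i j k h, neg_zero]
  · intro a ha i j k h
    exact ha i j k (by omega)
  · intro v a b ha hb i j k h
    rw [Matrix.mul_apply, map_sum, Polynomial.finsetSum_coeff]
    refine Finset.sum_eq_zero fun l _ => ?_
    rw [map_mul, Polynomial.coeff_mul]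
    refine Finset.sum_eq_zero fun p hp => ?_
    have hp' := Finset.HasAntidiagonal.mem_antidiagonal.1 hp
    by_cases h1 : p.1 + (l : ℕ) < w + (i : ℕ)
    · rw [ha i l p.1 h1, zero_mul]
    · rw [hb l j p.2 (by omega), mul_zero]

end Pool.Agent.Helper501.EP
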