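import Pool.Agent.Helper501.EP.Defs
import Pool.Agent.Helper501.EP.P_central_order
import Pool.Agent.Helper501.EP.P_wt_ops
import Pool.Agent.Helper501.EP.P_wt_one_of_F1

set_option autoImplicit false

namespace Pool.Agent.Helper501.EP
open Matrix


private noncomputable def j21946_c {S : Type} [Ring S] (δ : S →+* Polynomial S) (w : ℕ)
    (t : Matrix (Fin 3) (Fin 3) S) : Matrix (Fin 3) (Fin 3) S :=
  Matrix.of fun i j => if (j : ℕ) ≤ w + 1 + (i : ℕ) then
    (δ (t i j)).coeff (w + 1 + (i : ℕ) - (j : ℕ)) else 0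

private theorem j21946_c_add {S : Type} [Ring S] (δ : S →+* Polynomial S) (w : ℕ)
    (a b : Matrix (Fin 3) (Fin 3) S) :
    j21946_c δ w (a + b) = j21946_c δ w a + j21946_c δ w b := by
  ext i j
  simp only [j21946_c, Matrix.of_apply, Matrix.add_apply, map_add, Polynomial.coeff_add]
  split_ifs
  · rfl
  · simp

private theorem j21946_c_zero {S : Type} [Ring S] (δ : S →+* Polynomial S) (w : ℕ)
    (t : Matrix (Fin 3) (Fin 3) S) (h : wt δ (w + 1 + 1) t) : j21946_c δ w t = 0 := by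
  ext i j
  simp only [j21946_c, Matrix.of_apply, Matrix.zero_apply]
  split_ifs with hij
  · exact h i j _ (by omega)
  · rfl

private theorem j21946_c_iff {S : Type} [Ring S] (δ : S →+* Polynomial S) (w : ℕ)
    (t : Matrix (Fin 3) (Fin 3) S) (h : wt δ (w + 1) t) :
    j21946_c δ w t = 0 ↔ wt δ (w + 1 + 1) t := by
  constructor
  · intro h0 i j k hk
    by_cases hk' : k + (j : ℕ) < w + 1 + (i : ℕ)
    · exact h i j k hk'
    · have e : k + (j : ℕ) = w + 1 + (i : ℕ) := by omega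
      have h1 := congrFun (congrFun h0 i) j
      simp only [j21946_c, Matrix.of_apply, Matrix.zero_apply] at h1
      rw [if_pos (by omega)] at h1
      have e2 : w + 1 + (i : ℕ) - (j : ℕ) = k := by omega
      rwa [e2] at h1
  · exact j21946_c_zero δ w t

private theorem j21946_mono {S : Type} [Ring S] (δ : S →+* Polynomial S) (w v : ℕ)
    (t : Matrix (Fin 3) (Fin 3) S) (hwv : w ≤ v) (h : wt δ v t) : wt δ w t :=
  fun i j k hk => h i j k (by omega)

theorem GG_order {S : Type} [Ring S] [Algebra ℚ S] (ε : S →+* ℚ) (δ : S →+* Polynomial S)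
    (hinj : Function.Injective δ)
    (h3 : ∀ (z : S) (k : ℕ), ¬ 3 ∣ k → (δ z).coeff k = 0)
    (h0 : ∀ z : S, ε z = 0 → (δ z).coeff 0 = 0)
    (GG : Subgroup (Matrix (Fin 3) (Fin 3) S)ˣ) (hGG : ∀ u : (Matrix (Fin 3) (Fin 3) S)ˣ, u ∈ GG ↔
      (F1 ε ((u : Matrix (Fin 3) (Fin 3) S) - 1) ∧
       F1 ε (((u⁻¹ : (Matrix (Fin 3) (Fin 3) S)ˣ) : Matrix (Fin 3) (Fin 3) S) - 1))) :
    ∃ L : LinearOrder GG, ∀ a b c : GG, L.le a b → L.le (c * a) (c * b) ∧ L.le (a * c) (b * c) := by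
  obtain ⟨m, hm⟩ : ∃ m : GG → Matrix (Fin 3) (Fin 3) S,
      m = fun (g : GG) => ((g : (Matrix (Fin 3) (Fin 3) S)ˣ) : Matrix (Fin 3) (Fin 3) S) :=
    ⟨_, rfl⟩
  have m1 : m 1 = 1 := by rw [hm]; rfl
  have mmul : ∀ g h, m (g * h) = m g * m h := by
    intro g h
    rw [hm]
    rfl
  have minv : ∀ g, m g⁻¹ * m g = 1 := by
    intro g
    rw [← mmul, inv_mul_cancel, m1]
  have minj : ∀ g, m g = 1 → g = 1 := by
    intro g hg
    apply Subtype.ext
    apply Units.ext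
    rw [hm] at hg
    exact hg
  have hw1 : ∀ g, wt δ 1 (m g - 1) := by
    intro g
    refine wt_one_of_F1 ε δ h3 h0 _ ?_
    rw [hm]
    exact ((hGG g).1 g.2).1
  have wadd := fun w => (wt_ops (S := S) δ w).2.1
  have wneg := fun w => (wt_ops (S := S) δ w).2.2.1
  have wmul := fun w => (wt_ops (S := S) δ w).2.2.2.2
  have wzero := fun w => (wt_ops (S := S) δ w).1
  have emul : ∀ g h, m (g * h) - 1 = (m g - 1) * (m h - 1) + ((m g - 1) + (m h - 1)) := by
    intro g h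
    rw [mmul]
    noncomm_ring
  have einv : ∀ g, m g⁻¹ - 1 = -(m g - 1) + -((m g⁻¹ - 1) * (m g - 1)) := by
    intro g
    have h1 : (m g⁻¹ - 1) * (m g - 1) = 1 - m g⁻¹ - m g + 1 := by
      have h2 : (m g⁻¹ - 1) * (m g - 1) = m g⁻¹ * m g - m g⁻¹ - m g + 1 := by noncomm_ring
      rw [h2, minv g]
    rw [h1]
    abel
  have econj : ∀ g h, m (h⁻¹ * g * h) - 1 = (m g - 1) + (((m h⁻¹ - 1) * (m g - 1) +
      (m g - 1) * (m h - 1)) + (m h⁻¹ - 1) * (m g - 1) * (m h - 1)) := by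
    intro g h
    have h1 : m (h⁻¹ * g * h) - 1 = m h⁻¹ * (m g - 1) * m h := by
      have h2 : m h⁻¹ * (m g - 1) * m h = m h⁻¹ * m g * m h - m h⁻¹ * m h := by noncomm_ring
      rw [mmul, mmul, h2, minv h]
    rw [h1]
    noncomm_ring
  refine central_order GG (Matrix (Fin 3) (Fin 3) S) (fun w g => wt δ (w + 1) (m g - 1))
    (fun w g => j21946_c δ w (m g - 1)) ?_ ?_ ?_ ?_ ?_ ?_ ?_ ?_
  · intro g
    exact hw1 g
  · intro w g hg
    exact j21946_mono δ _ _ _ (by omega) hg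
  · intro g hg
    apply minj
    have h4 : m g - 1 = 0 := by
      ext i j
      apply hinj
      rw [Matrix.zero_apply, map_zero]
      ext k
      rw [Polynomial.coeff_zero]
      exact hg (k + (j : ℕ)) i j k (by omega)
    exact sub_eq_zero.1 h4
  · intro w
    simp only [m1, sub_self]
    exact wzero _
  · intro w g h hg hh
    have hp : wt δ (w + 1 + (w + 1)) ((m g - 1) * (m h - 1)) := wmul _ _ _ _ hg hh
    rw [emul]
    refine ⟨wadd _ _ _ (j21946_mono δ _ _ _ (by omega) hp) (wadd _ _ _ hg hh), ?_⟩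
    rw [j21946_c_add, j21946_c_add, j21946_c_zero δ w _ (j21946_mono δ _ _ _ (by omega) hp),
      zero_add]
  · intro w g hg
    have hp : wt δ (1 + (w + 1)) ((m g⁻¹ - 1) * (m g - 1)) := wmul _ _ _ _ (hw1 g⁻¹) hg
    rw [einv]
    exact wadd _ _ _ (wneg _ _ hg) (wneg _ _ (j21946_mono δ _ _ _ (by omega) hp))
  · intro w g hg
    exact j21946_c_iff δ w _ hg
  · intro w g h hg
    have p1 : wt δ (1 + (w + 1)) ((m h⁻¹ - 1) * (m g - 1)) := wmul _ _ _ _ (hw1 h⁻¹) hg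
    have p2 : wt δ (w + 1 + 1) ((m g - 1) * (m h - 1)) := wmul _ _ _ _ hg (hw1 h)
    have p3 : wt δ (1 + (w + 1) + 1) ((m h⁻¹ - 1) * (m g - 1) * (m h - 1)) :=
      wmul _ _ _ _ p1 (hw1 h)
    have p4 : wt δ (w + 1 + 1) (((m h⁻¹ - 1) * (m g - 1) +
      (m g - 1) * (m h - 1)) + (m h⁻¹ - 1) * (m g - 1) * (m h - 1)) :=
      wadd _ _ _ (wadd _ _ _ (j21946_mono δ _ _ _ (by omega) p1) p2)
        (j21946_mono δ _ _ _ (by omega) p3)
    rw [econj]
    refine ⟨wadd _ _ _ hg (j21946_mono δ _ _ _ (by omega) p4), ?_⟩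
    rw [j21946_c_add, j21946_c_zero δ w _ p4, add_zero]

end Pool.Agent.Helper501.EP
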