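import Pool.Agent.Helper501.EP.Defs

set_option autoImplicit false

namespace Pool.Agent.Helper501.EP
open Matrix


/-- word product in two letters -/
def sqw {M : Type} [Ring M] (e e' : M) (l : List Bool) : M :=
  (l.map (fun b => if b then e' else e)).prod

theorem sqw_cons {M : Type} [Ring M] (e e' : M) (b : Bool) (l : List Bool) :
    sqw e e' (b :: l) = (if b then e' else e) * sqw e e' l := by
  simp [sqw]

theorem sqw_append {M : Type} [Ring M] (e e' : M) (l l' : List Bool) :
    sqw e e' (l ++ l') = sqw e e' l * sqw e e' l' := by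
  simp [sqw]

/-- the filtration -/
def sqN {M : Type} [Ring M] (e e' : M) (k : ℕ) : AddSubgroup M :=
  AddSubgroup.closure {x | ∃ l : List Bool, k ≤ l.length ∧ x = sqw e e' l}

theorem sqN_mul {M : Type} [Ring M] (e e' : M) {i j : ℕ} {x y : M} (hx : x ∈ sqN e e' i)
    (hy : y ∈ sqN e e' j) : x * y ∈ sqN e e' (i + j) := by
  unfold sqN at hx
  induction hx using AddSubgroup.closure_induction with
  | mem x hx =>
    obtain ⟨l, hl, rfl⟩ := hx
    unfold sqN at hy
    induction hy using AddSubgroup.closure_induction with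
    | mem y hy =>
      obtain ⟨l', hl', rfl⟩ := hy
      apply AddSubgroup.subset_closure
      refine ⟨l ++ l', ?_, (sqw_append _ _ _ _).symm⟩
      rw [List.length_append]
      omega
    | zero => rw [mul_zero]; exact AddSubgroup.zero_mem _
    | add a b _ _ h1 h2 => rw [mul_add]; exact AddSubgroup.add_mem _ h1 h2
    | neg a _ h1 => rw [mul_neg]; exact AddSubgroup.neg_mem _ h1
  | zero => rw [zero_mul]; exact AddSubgroup.zero_mem _
  | add a b _ _ h1 h2 => rw [add_mul]; exact AddSubgroup.add_mem _ h1 h2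
  | neg a _ h1 => rw [neg_mul]; exact AddSubgroup.neg_mem _ h1

theorem sqN_anti {M : Type} [Ring M] (e e' : M) {i j : ℕ} (hij : i ≤ j) :
    sqN e e' j ≤ sqN e e' i := by
  unfold sqN
  apply AddSubgroup.closure_mono
  rintro x ⟨l, hl, rfl⟩
  exact ⟨l, hij.trans hl, rfl⟩

theorem sqw_aux {M : Type} [Ring M] (e e' : M) (he : e * e = 0) (he' : e' * e' = 0) (r : ℕ) :
    ∀ l : List Bool, 2 * r ≤ l.length → ∃ x, e * e' * sqw e e' l = (e * e') ^ (r + 1) * x := by
  induction r with
  | zero =>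
    intro l _
    exact ⟨sqw e e' l, by rw [zero_add, pow_one]⟩
  | succ r ih =>
    intro l hl
    match l, hl with
    | [], hl => simp at hl
    | [_], hl => simp at hl; omega
    | a :: b :: l', hl =>
      have hl' : 2 * r ≤ l'.length := by
        simp only [List.length_cons] at hl
        omega
      rw [sqw_cons, sqw_cons]
      cases a with
      | true =>
        refine ⟨0, ?_⟩
        simp only [if_true, mul_zero]
        rw [mul_assoc, ← mul_assoc e' e', he', zero_mul, mul_zero]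
      | false =>
        cases b with
        | false =>
          refine ⟨0, ?_⟩
          simp only [Bool.false_eq_true, if_false, mul_zero]
          rw [← mul_assoc e e, he, zero_mul, mul_zero]
        | true =>
          obtain ⟨x, hx⟩ := ih l' hl'
          refine ⟨x, ?_⟩
          simp only [Bool.false_eq_true, if_false, if_true]
          rw [← mul_assoc e e', hx, ← mul_assoc, ← pow_succ']

theorem sqw_zero {M : Type} [Ring M] (e e' : M) (he : e * e = 0) (he' : e' * e' = 0) (r : ℕ)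
    (hr : (e * e') ^ (r + 1) = 0) :
    ∀ l : List Bool, 2 * r + 3 ≤ l.length → sqw e e' l = 0 := by
  intro l hl
  match l, hl with
  | [], hl => simp at hl
  | [_], hl => simp at hl
  | [_, _], hl => simp at hl
  | a :: b :: c :: l', hl =>
    have hl' : 2 * r ≤ l'.length := by
      simp only [List.length_cons] at hl
      omega
    have hl2 : 2 * r ≤ (c :: l').length := by
      simp only [List.length_cons] at hl ⊢
      omega
    rw [sqw_cons, sqw_cons]
    cases a with
    | false =>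
      cases b with
      | false =>
        simp only [Bool.false_eq_true, if_false]
        rw [← mul_assoc, he, zero_mul]
      | true =>
        obtain ⟨x, hx⟩ := sqw_aux e e' he he' r _ hl2
        simp only [Bool.false_eq_true, if_false, if_true]
        rw [← mul_assoc, hx, hr, zero_mul]
    | true =>
      cases b with
      | true =>
        simp only [if_true]
        rw [← mul_assoc, he', zero_mul]
      | false =>
        rw [sqw_cons]
        cases c with
        | false =>
          simp only [Bool.false_eq_true, if_false]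
          rw [← mul_assoc e e, he, zero_mul, mul_zero]
        | true =>
          obtain ⟨x, hx⟩ := sqw_aux e e' he he' r _ hl'
          simp only [Bool.false_eq_true, if_false, if_true]
          rw [← mul_assoc e e', hx, hr, zero_mul, mul_zero]

theorem sqN_bot {M : Type} [Ring M] (e e' : M) (he : e * e = 0) (he' : e' * e' = 0) (r : ℕ)
    (hr : (e * e') ^ (r + 1) = 0) {x : M} (hx : x ∈ sqN e e' (2 * r + 3)) : x = 0 := by
  unfold sqN at hx
  induction hx using AddSubgroup.closure_induction with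
  | mem x hx =>
    obtain ⟨l, hl, rfl⟩ := hx
    exact sqw_zero e e' he he' r hr l hl
  | zero => rfl
  | add a b _ _ h1 h2 => rw [h1, h2, add_zero]
  | neg a _ h1 => rw [h1, neg_zero]

theorem sqN_one {M : Type} [Ring M] (e e' : M) : (1 : M) ∈ sqN e e' 0 := by
  apply AddSubgroup.subset_closure
  exact ⟨[], le_rfl, by simp [sqw]⟩

theorem sqN_e {M : Type} [Ring M] (e e' : M) : e ∈ sqN e e' 1 := by
  apply AddSubgroup.subset_closure
  exact ⟨[false], le_rfl, by simp [sqw]⟩

theorem sqN_e' {M : Type} [Ring M] (e e' : M) : e' ∈ sqN e e' 1 := by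
  apply AddSubgroup.subset_closure
  exact ⟨[true], le_rfl, by simp [sqw]⟩

theorem sqN_step {M : Type} [Ring M] (e e' : M) (u z : Mˣ) (hu : (u : M) = 1 + e)
    (hu' : ((u⁻¹ : Mˣ) : M) = 1 - e) (k : ℕ)
    (h1 : (z : M) - 1 ∈ sqN e e' k) (h2 : ((z⁻¹ : Mˣ) : M) - 1 ∈ sqN e e' k) :
    ((cm u z : Mˣ) : M) - 1 ∈ sqN e e' (k + 1) ∧
      (((cm u z)⁻¹ : Mˣ) : M) - 1 ∈ sqN e e' (k + 1) := by
  have hz0 : ((z⁻¹ : Mˣ) : M) ∈ sqN e e' 0 := by
    have := AddSubgroup.add_mem _ (sqN_anti e e' (Nat.zero_le k) h2) (sqN_one e e')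
    rwa [sub_add_cancel] at this
  have hu0 : ((u⁻¹ : Mˣ) : M) ∈ sqN e e' 0 := by
    rw [hu']
    exact AddSubgroup.sub_mem _ (sqN_one e e') (sqN_anti e e' (Nat.zero_le 1) (sqN_e e e'))
  have hc : (z : M) * u - u * z ∈ sqN e e' (k + 1) := by
    have e1 : (z : M) * u - u * z = ((z : M) - 1) * e - e * ((z : M) - 1) := by
      rw [hu]; noncomm_ring
    rw [e1]
    refine AddSubgroup.sub_mem _ (sqN_mul e e' h1 (sqN_e e e')) ?_
    rw [add_comm k 1]
    exact sqN_mul e e' (sqN_e e e') h1
  have hc' : (u : M) * z - z * u ∈ sqN e e' (k + 1) := by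
    have := AddSubgroup.neg_mem _ hc
    rwa [neg_sub] at this
  constructor
  · have e2 : ((cm u z : Mˣ) : M) - 1 =
        ((z⁻¹ : Mˣ) : M) * (((u⁻¹ : Mˣ) : M) * ((z : M) * u - u * z)) := by
      have e3 : ((z⁻¹ : Mˣ) : M) * (((u⁻¹ : Mˣ) : M) * ((u : M) * z)) = 1 := by
        rw [← mul_assoc ((u⁻¹ : Mˣ) : M), Units.inv_mul, one_mul, Units.inv_mul]
      rw [mul_sub, mul_sub, e3]
      simp only [cm, Units.val_mul]
      noncomm_ring
    rw [e2]
    have := sqN_mul e e' hz0 (sqN_mul e e' hu0 hc)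
    simpa using this
  · have e2 : (((cm u z)⁻¹ : Mˣ) : M) - 1 =
        ((u⁻¹ : Mˣ) : M) * (((z⁻¹ : Mˣ) : M) * ((u : M) * z - z * u)) := by
      have e3 : ((u⁻¹ : Mˣ) : M) * (((z⁻¹ : Mˣ) : M) * ((z : M) * u)) = 1 := by
        rw [← mul_assoc ((z⁻¹ : Mˣ) : M), Units.inv_mul, one_mul, Units.inv_mul]
      have e4 : (cm u z)⁻¹ = u⁻¹ * z⁻¹ * u * z := by
        unfold cm
        group
      rw [mul_sub, mul_sub, e3, e4]
      simp only [Units.val_mul]
      noncomm_ring
    rw [e2]
    have := sqN_mul e e' hu0 (sqN_mul e e' hz0 hc')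
    simpa using this

theorem engel_sq {M : Type} [Ring M] (u h : Mˣ) (e : M) (he : e * e = 0) (hu : (u : M) = 1 + e)
    (hu' : ((u⁻¹ : Mˣ) : M) = 1 - e)
    (hn : IsNilpotent (e * (((h⁻¹ : Mˣ) : M) * e * (h : M)))) : ∃ k : ℕ, (cm u)^[k] h = 1 := by
  obtain ⟨e', he'd⟩ : ∃ e' : M, e' = ((h⁻¹ : Mˣ) : M) * e * (h : M) := ⟨_, rfl⟩
  rw [← he'd] at hn
  obtain ⟨r, hr⟩ := hn
  have he' : e' * e' = 0 := by
    rw [he'd]
    have : ((h⁻¹ : Mˣ) : M) * e * (h : M) * (((h⁻¹ : Mˣ) : M) * e * (h : M)) =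
        ((h⁻¹ : Mˣ) : M) * (e * ((h : M) * ((h⁻¹ : Mˣ) : M)) * e) * (h : M) := by
      noncomm_ring
    rw [this, Units.mul_inv, mul_one, he, mul_zero, zero_mul]
  have hr1 : (e * e') ^ (r + 1) = 0 := by rw [pow_succ, hr, zero_mul]
  have hbase : ((cm u h : Mˣ) : M) - 1 ∈ sqN e e' 1 ∧
      (((cm u h)⁻¹ : Mˣ) : M) - 1 ∈ sqN e e' 1 := by
    have hee : e' * e ∈ sqN e e' 1 :=
      sqN_anti e e' (by norm_num) (sqN_mul e e' (sqN_e' e e') (sqN_e e e'))
    have hee2 : e * e' ∈ sqN e e' 1 :=
      sqN_anti e e' (by norm_num) (sqN_mul e e' (sqN_e e e') (sqN_e' e e'))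
    have k1 : ((h⁻¹ : Mˣ) : M) * (1 - e) * (h : M) = 1 - e' := by
      rw [mul_sub, mul_one, sub_mul, Units.inv_mul, he'd]
    have k2 : ((h⁻¹ : Mˣ) : M) * (1 + e) * (h : M) = 1 + e' := by
      rw [mul_add, mul_one, add_mul, Units.inv_mul, he'd]
    constructor
    · have : ((cm u h : Mˣ) : M) - 1 = e - e' - e' * e := by
        simp only [cm, Units.val_mul]
        rw [hu', k1, hu]
        noncomm_ring
      rw [this]
      exact AddSubgroup.sub_mem _ (AddSubgroup.sub_mem _ (sqN_e e e') (sqN_e' e e')) hee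
    · have e4 : (cm u h)⁻¹ = u⁻¹ * (h⁻¹ * u * h) := by
        unfold cm
        group
      have : (((cm u h)⁻¹ : Mˣ) : M) - 1 = e' - e - e * e' := by
        rw [e4]
        simp only [Units.val_mul]
        rw [hu', hu, k2]
        noncomm_ring
      rw [this]
      exact AddSubgroup.sub_mem _ (AddSubgroup.sub_mem _ (sqN_e' e e') (sqN_e e e')) hee2
  have hit : ∀ k : ℕ, (((cm u)^[k + 1] h : Mˣ) : M) - 1 ∈ sqN e e' (k + 1) ∧
      ((((cm u)^[k + 1] h)⁻¹ : Mˣ) : M) - 1 ∈ sqN e e' (k + 1) := by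
    intro k
    induction k with
    | zero => exact hbase
    | succ k ih =>
      rw [Function.iterate_succ_apply']
      exact sqN_step e e' u _ hu hu' (k + 1) ih.1 ih.2
  refine ⟨2 * r + 3, ?_⟩
  have h1 := sqN_bot e e' he he' r hr1 (hit (2 * r + 2)).1
  apply Units.ext
  rw [Units.val_one]
  exact sub_eq_zero.1 h1

end Pool.Agent.Helper501.EP
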