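import Pool.Agent.Helper501.EP.Defs
import Pool.Agent.Helper501.EP.P_F1_ops

set_option autoImplicit false

namespace Pool.Agent.Helper501.EP
open Matrix


theorem exists_GG {S : Type} [Ring S] (ε : S →+* ℚ) :
    ∃ GG : Subgroup (Matrix (Fin 3) (Fin 3) S)ˣ, ∀ u : (Matrix (Fin 3) (Fin 3) S)ˣ, u ∈ GG ↔
      (F1 ε ((u : Matrix (Fin 3) (Fin 3) S) - 1) ∧
       F1 ε (((u⁻¹ : (Matrix (Fin 3) (Fin 3) S)ˣ) : Matrix (Fin 3) (Fin 3) S) - 1)) := by
  obtain ⟨h0, hadd, hmul, -, -, -, -⟩ := F1_ops (S := S) ε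
  have key : ∀ a b : Matrix (Fin 3) (Fin 3) S, F1 ε (a - 1) → F1 ε (b - 1) → F1 ε (a * b - 1) := by
    intro a b ha hb
    have e : a * b - 1 = (a - 1) * (b - 1) + ((a - 1) + (b - 1)) := by noncomm_ring
    rw [e]
    exact hadd _ _ (hmul _ _ ha hb) (hadd _ _ ha hb)
  refine ⟨{ carrier := {u | F1 ε ((u : Matrix (Fin 3) (Fin 3) S) - 1) ∧
              F1 ε (((u⁻¹ : (Matrix (Fin 3) (Fin 3) S)ˣ) : Matrix (Fin 3) (Fin 3) S) - 1)}
            mul_mem' := ?_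
            one_mem' := ?_
            inv_mem' := ?_ }, ?_⟩
  · intro a b ha hb
    refine ⟨?_, ?_⟩
    · rw [Units.val_mul]
      exact key _ _ ha.1 hb.1
    · rw [_root_.mul_inv_rev, Units.val_mul]
      exact key _ _ hb.2 ha.2
  · refine ⟨?_, ?_⟩
    · rw [Units.val_one, sub_self]
      exact h0
    · rw [inv_one, Units.val_one, sub_self]
      exact h0
  · intro a ha
    refine ⟨ha.2, ?_⟩
    rw [inv_inv]
    exact ha.1
  · intro u
    exact Iff.rfl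

end Pool.Agent.Helper501.EP
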