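import Pool.Agent.Helper501.EP.Defs

set_option autoImplicit false

namespace Pool.Agent.Helper501.EP
open Matrix


theorem gM_gI {S : Type} [Ring S] : (gM : Matrix (Fin 3) (Fin 3) S) * gI = 1 ∧
    (gI : Matrix (Fin 3) (Fin 3) S) * gM = 1 ∧
    (gM : Matrix (Fin 3) (Fin 3) S) = (1 + e23) * (1 + e12) ∧
    (e12 : Matrix (Fin 3) (Fin 3) S) * e12 = 0 ∧ (e23 : Matrix (Fin 3) (Fin 3) S) * e23 = 0 ∧
    (∀ x y w v : S, cwr x y w * cwr x y v = 0) := by
  refine ⟨?_, ?_, ?_, ?_, ?_, ?_⟩
  · ext i j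
    fin_cases i <;> fin_cases j <;>
      simp [gM, gI, Matrix.mul_apply, Fin.sum_univ_three]
  · ext i j
    fin_cases i <;> fin_cases j <;>
      simp [gM, gI, Matrix.mul_apply, Fin.sum_univ_three]
  · ext i j
    fin_cases i <;> fin_cases j <;>
      simp [gM, e12, e23, Matrix.mul_apply, Fin.sum_univ_three, Matrix.add_apply, Matrix.one_apply]
  · ext i j
    fin_cases i <;> fin_cases j <;>
      simp [e12, Matrix.mul_apply, Fin.sum_univ_three]
  · ext i j
    fin_cases i <;> fin_cases j <;>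
      simp [e23, Matrix.mul_apply, Fin.sum_univ_three]
  · intro x y w v
    ext i j
    fin_cases i <;> fin_cases j <;>
      simp [cwr, Matrix.mul_apply, Fin.sum_univ_three]

end Pool.Agent.Helper501.EP
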