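import Pool.Agent.Helper501.EP.Defs

set_option autoImplicit false

namespace Pool.Agent.Helper501.EP
open Matrix


theorem no_two {M : Type} [Ring M] [Algebra ℚ M] (u : Mˣ) (hn : IsNilpotent ((u : M) - 1))
    (h : u * u = 1) : u = 1 := by
  have h2 : IsUnit ((2 : M)) := by
    have := (isUnit_iff_ne_zero.2 (two_ne_zero (α := ℚ))).map (algebraMap ℚ M)
    rwa [map_ofNat] at this
  have h3 : IsUnit ((2 : M) + ((u : M) - 1)) :=
    IsNilpotent.isUnit_add_left_of_commute hn h2 (Commute.ofNat_right _ 2)
  have h4 : ((u : M) - 1) * ((2 : M) + ((u : M) - 1)) = 0 := by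
    have h5 : (u : M) * (u : M) = 1 := by
      have := congrArg Units.val h
      simpa using this
    have : ((u : M) - 1) * ((2 : M) + ((u : M) - 1)) = (u : M) * u - 1 := by noncomm_ring
    rw [this, h5, sub_self]
  have h6 : (u : M) - 1 = 0 := by
    obtain ⟨v, hv⟩ := h3
    rw [← hv] at h4
    simpa using h4
  apply Units.ext
  rw [Units.val_one]
  exact sub_eq_zero.1 h6

end Pool.Agent.Helper501.EP
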