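import Pool.Agent.Helper501.EP.Defs

set_option autoImplicit false

namespace Pool.Agent.Helper501.EP
open Matrix


theorem XY_iter {G : Type} [Group G] (g h : G) (n : ℕ) :
    (cm g)^[n + 1] h = (g ^ n)⁻¹ * (XY g h (n + 1)).1 * g ^ (n + 1) ∧
    ((cm g)^[n + 1] h)⁻¹ = (g ^ (n + 1))⁻¹ * (XY g h (n + 1)).2 * g ^ n := by
  induction n with
  | zero =>
    constructor
    · simp [cm, XY, mul_assoc]
    · simp [cm, XY, mul_assoc]
  | succ n ih =>
    obtain ⟨h1, h2⟩ := ih
    rw [Function.iterate_succ_apply' (cm g) (n + 1) h]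
    generalize hc : (cm g)^[n + 1] h = c at h1 h2
    have e1 : (XY g h (n + 1 + 1)).1 = (XY g h (n + 1)).2 * g⁻¹ * (XY g h (n + 1)).1 := rfl
    have e2 : (XY g h (n + 1 + 1)).2 = (XY g h (n + 1)).2 * g * (XY g h (n + 1)).1 := rfl
    have hX : (XY g h (n + 1)).1 = g ^ n * c * (g ^ (n + 1))⁻¹ := by
      rw [h1]; group
    have hY : (XY g h (n + 1)).2 = g ^ (n + 1) * c⁻¹ * (g ^ n)⁻¹ := by
      rw [h2]; group
    rw [e1, e2, hX, hY]
    constructor
    · simp only [cm]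
      have : (g ^ n)⁻¹ * g⁻¹ * g ^ n = g⁻¹ := by group
      group
    · simp only [cm]
      group

end Pool.Agent.Helper501.EP
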