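import Pool.Agent.Helper501.EP.Defs

set_option autoImplicit false

namespace Pool.Agent.Helper501.EP
open Matrix


theorem TopM_mul {S : Type} [Ring S] (P P' : Matrix (Fin 3) (Fin 3) (Polynomial S)) (d d' : ℕ)
    (A A' : Matrix (Fin 3) (Fin 3) S) (h : TopM P d A) (h' : TopM P' d' A') :
    TopM (P * P') (d + d') (A * A') := by
  intro i j
  rw [Matrix.mul_apply, Matrix.mul_apply]
  constructor
  · apply Polynomial.natDegree_sum_le_of_forall_le
    intro k _
    exact Polynomial.natDegree_mul_le_of_le (h i k).1 (h' k j).1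
  · rw [Polynomial.finset_sum_coeff]
    refine Finset.sum_congr rfl fun k _ => ?_
    rw [Polynomial.coeff_mul_add_eq_of_natDegree_le (h i k).1 (h' k j).1, (h i k).2, (h' k j).2]

end Pool.Agent.Helper501.EP
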