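import Pool.Agent.Helper501.EP.Defs

set_option autoImplicit false

namespace Pool.Agent.Helper501.EP
open Matrix


theorem cwr_mul {S : Type} [Ring S] (x y a b : S) :
    cwr x y a * gM * cwr x y b = cwr x y (a * x * b) ∧
    cwr x y a * gI * cwr x y b = cwr x y (a * y * b) := by
  constructor
  · ext i j
    fin_cases i <;> fin_cases j <;>
      simp [cwr, gM, Matrix.mul_apply, Fin.sum_univ_three] <;> noncomm_ring
  · ext i j
    fin_cases i <;> fin_cases j <;>
      simp [cwr, gI, Matrix.mul_apply, Fin.sum_univ_three] <;> noncomm_ring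

end Pool.Agent.Helper501.EP
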