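import Pool.Agent.Helper501.EP.Defs
import Pool.Agent.Helper501.EP.P_TopM_mul
import Pool.Agent.Helper501.EP.P_cwr_mul

set_option autoImplicit false

namespace Pool.Agent.Helper501.EP
open Matrix


theorem top_XY_gM {S : Type} [Ring S] (δ : S →+* Polynomial S) :
    TopM (δ.mapMatrix (gM : Matrix (Fin 3) (Fin 3) S)) 0 gM := by
  intro i j
  rw [RingHom.mapMatrix_apply, Matrix.map_apply]
  fin_cases i <;> fin_cases j <;> simp [gM]

theorem top_XY_gI {S : Type} [Ring S] (δ : S →+* Polynomial S) :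
    TopM (δ.mapMatrix (gI : Matrix (Fin 3) (Fin 3) S)) 0 gI := by
  intro i j
  rw [RingHom.mapMatrix_apply, Matrix.map_apply]
  fin_cases i <;> fin_cases j <;> simp [gI]

theorem top_XY_deg {S : Type} [Ring S] (x : S) :
    (Polynomial.X ^ 3 * Polynomial.C x).natDegree ≤ 3 ∧
      (Polynomial.X ^ 3 * Polynomial.C x).coeff 3 = x := by
  rw [Polynomial.X_pow_mul_C]
  constructor
  · exact Polynomial.natDegree_C_mul_X_pow_le x 3
  · rw [Polynomial.coeff_C_mul_X_pow, if_pos rfl]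

theorem top_XY_h {S : Type} [Ring S] (x y : S) (δ : S →+* Polynomial S)
    (hx : δ x = Polynomial.X ^ 3 * Polynomial.C x) (hy : δ y = Polynomial.X ^ 3 * Polynomial.C y) :
    TopM (δ.mapMatrix (1 + cwr x y 1)) 3 (cwr x y 1) := by
  have h1 := top_XY_deg x
  have h2 := top_XY_deg y
  have h3 : (Polynomial.X ^ 3 * Polynomial.C x + Polynomial.X ^ 3 * Polynomial.C y).natDegree ≤ 3 :=
    Polynomial.natDegree_add_le_of_degree_le h1.1 h2.1
  have h4 : (1 : Polynomial S).coeff 3 = 0 := by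
    rw [Polynomial.coeff_one, if_neg (by norm_num)]
  intro i j
  rw [RingHom.mapMatrix_apply, Matrix.map_apply]
  fin_cases i <;> fin_cases j <;>
    simp only [cwr, Matrix.add_apply, Matrix.one_apply, Matrix.of_apply, Matrix.cons_val',
      Matrix.cons_val_zero, Matrix.cons_val_one, Matrix.cons_val, Fin.zero_eta, Fin.mk_one,
      Fin.reduceFinMk, Fin.reduceEq, Fin.isValue, if_true, if_false, zero_add, add_zero, mul_one,
      map_zero, map_one, map_add, hx, hy, Polynomial.natDegree_zero, Polynomial.natDegree_one,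
      Polynomial.coeff_zero, Polynomial.coeff_add, h4, h1.2, h2.2, zero_le, and_self, h1.1, h3,
      one_ne_zero, zero_ne_one]

theorem top_XY_h' {S : Type} [Ring S] (x y : S) (δ : S →+* Polynomial S)
    (hx : δ x = Polynomial.X ^ 3 * Polynomial.C x) (hy : δ y = Polynomial.X ^ 3 * Polynomial.C y) :
    TopM (δ.mapMatrix (1 - cwr x y 1)) 3 (-cwr x y 1) := by
  have h1 := top_XY_deg x
  have h2 := top_XY_deg y
  have h3 : (Polynomial.X ^ 3 * Polynomial.C x + Polynomial.X ^ 3 * Polynomial.C y).natDegree ≤ 3 :=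
    Polynomial.natDegree_add_le_of_degree_le h1.1 h2.1
  have h4 : (1 : Polynomial S).coeff 3 = 0 := by
    rw [Polynomial.coeff_one, if_neg (by norm_num)]
  intro i j
  rw [RingHom.mapMatrix_apply, Matrix.map_apply]
  fin_cases i <;> fin_cases j <;>
    simp only [cwr, Matrix.sub_apply, Matrix.neg_apply, Matrix.one_apply, Matrix.of_apply,
      Matrix.cons_val',
      Matrix.cons_val_zero, Matrix.cons_val_one, Matrix.cons_val, Fin.zero_eta, Fin.mk_one,
      Fin.reduceFinMk, Fin.reduceEq, Fin.isValue, if_true, if_false, zero_add, add_zero, mul_one,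
      map_zero, map_one, map_add, map_neg, zero_sub, sub_zero, neg_zero, hx, hy,
      Polynomial.natDegree_neg, Polynomial.coeff_neg,
      Polynomial.natDegree_zero, Polynomial.natDegree_one,
      Polynomial.coeff_zero, Polynomial.coeff_add, h4, h1.2, h2.2, zero_le, and_self, h1.1, h3,
      one_ne_zero, zero_ne_one]

theorem top_XY {S : Type} [Ring S] (x y : S) (δ : S →+* Polynomial S)
    (hx : δ x = Polynomial.X ^ 3 * Polynomial.C x) (hy : δ y = Polynomial.X ^ 3 * Polynomial.C y)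
    (g h : (Matrix (Fin 3) (Fin 3) S)ˣ) (hg : (g : Matrix (Fin 3) (Fin 3) S) = gM)
    (hg' : ((g⁻¹ : (Matrix (Fin 3) (Fin 3) S)ˣ) : Matrix (Fin 3) (Fin 3) S) = gI)
    (hh : (h : Matrix (Fin 3) (Fin 3) S) = 1 + cwr x y 1)
    (hh' : ((h⁻¹ : (Matrix (Fin 3) (Fin 3) S)ˣ) : Matrix (Fin 3) (Fin 3) S) = 1 - cwr x y 1)
    (n : ℕ) :
    ∃ c c' : ℤ, (c = 1 ∨ c = -1) ∧ (c' = 1 ∨ c' = -1) ∧
      TopM (δ.mapMatrix (((XY g h n).1 : (Matrix (Fin 3) (Fin 3) S)ˣ) : Matrix (Fin 3) (Fin 3) S))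
        (3 * 2 ^ n) (c • cwr x y (PF x y n).2) ∧
      TopM (δ.mapMatrix (((XY g h n).2 : (Matrix (Fin 3) (Fin 3) S)ˣ) : Matrix (Fin 3) (Fin 3) S))
        (3 * 2 ^ n) (c' • cwr x y (PF x y n).1) := by
  induction n with
  | zero =>
    refine ⟨1, -1, Or.inl rfl, Or.inr rfl, ?_, ?_⟩
    · rw [one_smul, pow_zero, mul_one]
      show TopM (δ.mapMatrix ((h : (Matrix (Fin 3) (Fin 3) S)ˣ) : Matrix (Fin 3) (Fin 3) S)) 3
        (cwr x y 1)
      rw [hh]
      exact top_XY_h x y δ hx hy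
    · rw [neg_smul, one_smul, pow_zero, mul_one]
      show TopM (δ.mapMatrix ((h⁻¹ : (Matrix (Fin 3) (Fin 3) S)ˣ) : Matrix (Fin 3) (Fin 3) S)) 3
        (-cwr x y 1)
      rw [hh']
      exact top_XY_h' x y δ hx hy
  | succ n ih =>
    obtain ⟨c, c', hc, hc', hX, hY⟩ := ih
    have hcc : c' * c = 1 ∨ c' * c = -1 := by
      rcases hc with rfl | rfl <;> rcases hc' with rfl | rfl <;> simp
    have hdeg : 3 * 2 ^ n + 0 + 3 * 2 ^ n = 3 * 2 ^ (n + 1) := by ring
    refine ⟨c' * c, c' * c, hcc, hcc, ?_, ?_⟩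
    · have h1 := TopM_mul _ _ _ _ _ _ (TopM_mul _ _ _ _ _ _ hY (top_XY_gI δ)) hX
      rw [hdeg, ← map_mul, ← map_mul] at h1
      have e1 : c' • cwr x y (PF x y n).1 * gI * c • cwr x y (PF x y n).2 =
          (c' * c) • cwr x y (PF x y (n + 1)).2 := by
        rw [smul_mul_assoc, smul_mul_assoc, mul_smul_comm, smul_smul, (cwr_mul x y _ _).2]
        rfl
      rw [e1] at h1
      have e2 : (((XY g h (n + 1)).1 : (Matrix (Fin 3) (Fin 3) S)ˣ) : Matrix (Fin 3) (Fin 3) S) =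
          ((XY g h n).2 : Matrix (Fin 3) (Fin 3) S) * gI * ((XY g h n).1 : Matrix (Fin 3) (Fin 3) S) := by
        rw [← hg', ← Units.val_mul, ← Units.val_mul]
        rfl
      rw [e2]
      exact h1
    · have h1 := TopM_mul _ _ _ _ _ _ (TopM_mul _ _ _ _ _ _ hY (top_XY_gM δ)) hX
      rw [hdeg, ← map_mul, ← map_mul] at h1
      have e1 : c' • cwr x y (PF x y n).1 * gM * c • cwr x y (PF x y n).2 =
          (c' * c) • cwr x y (PF x y (n + 1)).1 := by
        rw [smul_mul_assoc, smul_mul_assoc, mul_smul_comm, smul_smul, (cwr_mul x y _ _).1]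
        rfl
      rw [e1] at h1
      have e2 : (((XY g h (n + 1)).2 : (Matrix (Fin 3) (Fin 3) S)ˣ) : Matrix (Fin 3) (Fin 3) S) =
          ((XY g h n).2 : Matrix (Fin 3) (Fin 3) S) * gM * ((XY g h n).1 : Matrix (Fin 3) (Fin 3) S) := by
        rw [← hg, ← Units.val_mul, ← Units.val_mul]
        rfl
      rw [e2]
      exact h1

end Pool.Agent.Helper501.EP
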