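import Pool.Agent.Helper501.EP.Defs
import Pool.Agent.Helper501.EP.P_XY_iter
import Pool.Agent.Helper501.EP.P_gM_gI
import Pool.Agent.Helper501.EP.P_top_XY

set_option autoImplicit false

namespace Pool.Agent.Helper501.EP
open Matrix


theorem non_engel {S : Type} [Ring S] (x y : S) (δ : S →+* Polynomial S)
    (hx : δ x = Polynomial.X ^ 3 * Polynomial.C x) (hy : δ y = Polynomial.X ^ 3 * Polynomial.C y)
    (hPF : ∀ n, (PF x y n).1 ≠ 0)
    (g h : (Matrix (Fin 3) (Fin 3) S)ˣ) (hg : (g : Matrix (Fin 3) (Fin 3) S) = gM)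
    (hg' : ((g⁻¹ : (Matrix (Fin 3) (Fin 3) S)ˣ) : Matrix (Fin 3) (Fin 3) S) = gI)
    (hh : (h : Matrix (Fin 3) (Fin 3) S) = 1 + cwr x y 1)
    (hh' : ((h⁻¹ : (Matrix (Fin 3) (Fin 3) S)ˣ) : Matrix (Fin 3) (Fin 3) S) = 1 - cwr x y 1)
    (k : ℕ) : (cm g)^[k] h ≠ 1 := by
  intro hk
  cases k with
  | zero =>
    have h1 : h = 1 := hk
    have h2 : (1 : Matrix (Fin 3) (Fin 3) S) + cwr x y 1 = 1 := by
      rw [← hh, h1]
      rfl
    have h3 : cwr x y (1 : S) = 0 := by
      have := congrArg (fun M => M - 1) h2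
      simpa using this
    have h4 : (cwr x y (1 : S)) 1 0 = 0 := by
      rw [h3]
      rfl
    have h5 : x * 1 = 0 := h4
    apply hPF 1
    show 1 * x * 1 = 0
    rw [one_mul, h5]
  | succ n =>
    obtain ⟨hi, -⟩ := XY_iter g h n
    rw [hk] at hi
    have h1 : (XY g h (n + 1)).1 = g⁻¹ := by
      have h2 : g ^ n = (XY g h (n + 1)).1 * g ^ (n + 1) := by
        have := congrArg (fun t => g ^ n * t) hi
        simpa [mul_assoc] using this
      rw [pow_succ', ← mul_assoc] at h2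
      have h3 : (XY g h (n + 1)).1 * g = 1 := by
        have := congrArg (fun t => t * (g ^ n)⁻¹) h2
        simpa [mul_assoc] using this.symm
      exact eq_inv_of_mul_eq_one_left h3
    obtain ⟨c, c', hc, -, hT, -⟩ := top_XY x y δ hx hy g h hg hg' hh hh' (n + 1)
    have h4 := (hT 1 0).2
    rw [h1, hg'] at h4
    have h5 : (δ.mapMatrix (gI : Matrix (Fin 3) (Fin 3) S)) 1 0 = 0 := by
      show δ (gI 1 0) = 0
      have : (gI : Matrix (Fin 3) (Fin 3) S) 1 0 = 0 := rfl
      rw [this, map_zero]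
    rw [h5, Polynomial.coeff_zero] at h4
    have h6 : (c • cwr x y (PF x y (n + 1)).2) 1 0 = c • (x * (PF x y (n + 1)).2) := rfl
    rw [h6] at h4
    have h7 : x * (PF x y (n + 1)).2 = 0 := by
      rcases hc with rfl | rfl
      · rw [one_smul] at h4
        exact h4.symm
      · rw [neg_smul, one_smul] at h4
        exact neg_eq_zero.mp h4.symm
    apply hPF (n + 2)
    show (PF x y (n + 1)).1 * x * (PF x y (n + 1)).2 = 0
    rw [mul_assoc, h7, mul_zero]

end Pool.Agent.Helper501.EP
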