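import Pool.Agent.Helper501.EP.ExQ
import Pool.Agent.Helper501.EP.P_exists_GG
import Pool.Agent.Helper501.EP.P_GG_order
import Pool.Agent.Helper501.EP.P_F1_ops
import Pool.Agent.Helper501.EP.P_F1_nil
import Pool.Agent.Helper501.EP.P_gM_gI
import Pool.Agent.Helper501.EP.P_engel_sq
import Pool.Agent.Helper501.EP.P_no_two
import Pool.Agent.Helper501.EP.P_non_engel
set_option autoImplicit false

namespace Pool.Agent.Helper501.EP

open Matrix

theorem cm_coe {G : Type} [Group G] (H : Subgroup G) (g x : H) (k : ℕ) :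
    (((cm g)^[k] x : H) : G) = (cm (g : G))^[k] (x : G) := by
  induction k generalizing x with
  | zero => rfl
  | succ k ih =>
    rw [Function.iterate_succ_apply, Function.iterate_succ_apply, ih]
    rfl

theorem main : ∃ (G : Type) (_ : Group G) (L : LinearOrder G),
    (∀ a b c : G, L.le a b → L.le (c * a) (c * b) ∧ L.le (a * c) (b * c)) ∧
    (∀ u : G, u * u = 1 → u = 1) ∧
    ∃ g1 g2 : G, IsEngel g1 ∧ IsEngel g2 ∧ ¬ IsEngel (g1 * g2) := by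
  classical
  obtain ⟨Q, iR, iA, x, y, ε, δ, hx, hy, hεx, hεy, hinj, h3, h0, hnil, hPF⟩ := exists_Q
  obtain ⟨GG, hGG⟩ := exists_GG ε
  obtain ⟨L, hL⟩ := GG_order ε δ hinj h3 h0 GG hGG
  obtain ⟨f0, fadd, fmul, fneg, f12, f23, fcwr⟩ := F1_ops ε
  obtain ⟨hgi, hig, hprod, h12, h23, hcc⟩ := gM_gI (S := Q)
  -- the units
  let u1 : (Matrix (Fin 3) (Fin 3) Q)ˣ := ⟨1 + e23, 1 - e23, by
    rw [mul_sub, mul_one, add_mul, one_mul, h23]; abel, by
    rw [sub_mul, one_mul, mul_add, mul_one, h23]; abel⟩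
  let u2 : (Matrix (Fin 3) (Fin 3) Q)ˣ := ⟨1 + e12, 1 - e12, by
    rw [mul_sub, mul_one, add_mul, one_mul, h12]; abel, by
    rw [sub_mul, one_mul, mul_add, mul_one, h12]; abel⟩
  let h : (Matrix (Fin 3) (Fin 3) Q)ˣ := ⟨1 + cwr x y 1, 1 - cwr x y 1, by
    rw [mul_sub, mul_one, add_mul, one_mul, hcc]; abel, by
    rw [sub_mul, one_mul, mul_add, mul_one, hcc]; abel⟩
  have m1 : u1 ∈ GG := by
    rw [hGG]
    constructor
    · have : ((u1 : Matrix (Fin 3) (Fin 3) Q) - 1) = e23 := by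
        change (1 + e23 : Matrix (Fin 3) (Fin 3) Q) - 1 = e23
        abel
      rw [this]; exact f23
    · have : (((u1⁻¹ : (Matrix (Fin 3) (Fin 3) Q)ˣ) : Matrix (Fin 3) (Fin 3) Q) - 1) = -e23 := by
        change (1 - e23 : Matrix (Fin 3) (Fin 3) Q) - 1 = -e23
        abel
      rw [this]; exact fneg _ f23
  have m2 : u2 ∈ GG := by
    rw [hGG]
    constructor
    · have : ((u2 : Matrix (Fin 3) (Fin 3) Q) - 1) = e12 := by
        change (1 + e12 : Matrix (Fin 3) (Fin 3) Q) - 1 = e12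
        abel
      rw [this]; exact f12
    · have : (((u2⁻¹ : (Matrix (Fin 3) (Fin 3) Q)ˣ) : Matrix (Fin 3) (Fin 3) Q) - 1) = -e12 := by
        change (1 - e12 : Matrix (Fin 3) (Fin 3) Q) - 1 = -e12
        abel
      rw [this]; exact fneg _ f12
  have mh : h ∈ GG := by
    rw [hGG]
    constructor
    · have : ((h : Matrix (Fin 3) (Fin 3) Q) - 1) = cwr x y 1 := by
        change (1 + cwr x y 1 : Matrix (Fin 3) (Fin 3) Q) - 1 = cwr x y 1
        abel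
      rw [this]; exact fcwr x y 1 hεx hεy
    · have : (((h⁻¹ : (Matrix (Fin 3) (Fin 3) Q)ˣ) : Matrix (Fin 3) (Fin 3) Q) - 1)
          = -cwr x y 1 := by
        change (1 - cwr x y 1 : Matrix (Fin 3) (Fin 3) Q) - 1 = -cwr x y 1
        abel
      rw [this]; exact fneg _ (fcwr x y 1 hεx hεy)
  have hE : ∀ (u : (Matrix (Fin 3) (Fin 3) Q)ˣ) (hu : u ∈ GG) (e : Matrix (Fin 3) (Fin 3) Q),
      e * e = 0 → (u : Matrix (Fin 3) (Fin 3) Q) = 1 + e →
      ((u⁻¹ : (Matrix (Fin 3) (Fin 3) Q)ˣ) : Matrix (Fin 3) (Fin 3) Q) = 1 - e → F1 ε e →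
      IsEngel (⟨u, hu⟩ : GG) := by
    intro u hu e he hue hui hF z
    obtain ⟨hz1, hz2⟩ := (hGG z).1 z.2
    have key : IsNilpotent (e * ((((z : (Matrix (Fin 3) (Fin 3) Q)ˣ)⁻¹ :
        (Matrix (Fin 3) (Fin 3) Q)ˣ) : Matrix (Fin 3) (Fin 3) Q) * e *
        ((z : (Matrix (Fin 3) (Fin 3) Q)ˣ) : Matrix (Fin 3) (Fin 3) Q))) := by
      apply F1_nil ε hnil
      apply fmul _ _ hF
      set a : Matrix (Fin 3) (Fin 3) Q := ((z : (Matrix (Fin 3) (Fin 3) Q)ˣ) :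
        Matrix (Fin 3) (Fin 3) Q) with ha
      set b : Matrix (Fin 3) (Fin 3) Q := (((z : (Matrix (Fin 3) (Fin 3) Q)ˣ)⁻¹ :
        (Matrix (Fin 3) (Fin 3) Q)ˣ) : Matrix (Fin 3) (Fin 3) Q) with hb
      have e1 : b * e * a = (b - 1) * e * (a - 1) + (b - 1) * e + e * (a - 1) + e := by
        noncomm_ring
      rw [e1]
      exact fadd _ _ (fadd _ _ (fadd _ _ (fmul _ _ (fmul _ _ hz2 hF) hz1) (fmul _ _ hz2 hF))
        (fmul _ _ hF hz1)) hF
    obtain ⟨k, hk⟩ := engel_sq u (z : (Matrix (Fin 3) (Fin 3) Q)ˣ) e he hue hui key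
    refine ⟨k, ?_⟩
    apply Subtype.ext
    rw [cm_coe]
    exact hk
  refine ⟨GG, inferInstance, L, hL, ?_, ⟨u1, m1⟩, ⟨u2, m2⟩, ?_, ?_, ?_⟩
  · intro u hu
    obtain ⟨hz1, hz2⟩ := (hGG u).1 u.2
    apply Subtype.ext
    apply no_two (u : (Matrix (Fin 3) (Fin 3) Q)ˣ) (F1_nil ε hnil _ hz1)
    have := congrArg Subtype.val hu
    exact this
  · exact hE u1 m1 e23 h23 rfl rfl f23
  · exact hE u2 m2 e12 h12 rfl rfl f12
  · intro hEng
    obtain ⟨k, hk⟩ := hEng ⟨h, mh⟩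
    have hk' := congrArg (Subtype.val : GG → (Matrix (Fin 3) (Fin 3) Q)ˣ) hk
    rw [cm_coe] at hk'
    have hg : ((u1 * u2 : (Matrix (Fin 3) (Fin 3) Q)ˣ) : Matrix (Fin 3) (Fin 3) Q) = gM := by
      rw [Units.val_mul, hprod]
    have hg' : (((u1 * u2)⁻¹ : (Matrix (Fin 3) (Fin 3) Q)ˣ) : Matrix (Fin 3) (Fin 3) Q) = gI := by
      have e1 : (((u1 * u2)⁻¹ : (Matrix (Fin 3) (Fin 3) Q)ˣ) : Matrix (Fin 3) (Fin 3) Q) * gM
          = 1 := by
        rw [← hg]; exact Units.inv_mul _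
      calc (((u1 * u2)⁻¹ : (Matrix (Fin 3) (Fin 3) Q)ˣ) : Matrix (Fin 3) (Fin 3) Q)
          = (((u1 * u2)⁻¹ : (Matrix (Fin 3) (Fin 3) Q)ˣ) : Matrix (Fin 3) (Fin 3) Q) *
            (gM * gI) := by rw [hgi, mul_one]
        _ = gI := by rw [← mul_assoc, e1, one_mul]
    exact non_engel x y δ hx hy hPF (u1 * u2) h hg hg' rfl rfl k hk'

end Pool.Agent.Helper501.EP
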