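import Pool.Agent.Helper501.EP.Defs

set_option autoImplicit false

namespace Pool.Agent.Helper501.EP
open Matrix


theorem pr_zero (φ : FA) (p q : List Bool) : pr φ p q 0 = 0 := by
  simp [pr]

theorem pr_add (φ : FA) (p q : List Bool) (r r' : FA) :
    pr φ p q (r + r') = pr φ p q r + pr φ p q r' := by
  rw [pr, pr, pr, MonoidAlgebra.coeff_add]
  exact Finsupp.sum_add_index' (fun u => by simp) (fun u b c => by ring)

theorem pr_single (φ : FA) (p q : List Bool) (u : W) (c : ℚ) :
    pr φ p q (MonoidAlgebra.single u c) = c * cf φ (p ++ FreeMonoid.toList u ++ q) := by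
  rw [pr, MonoidAlgebra.coeff_single]
  exact Finsupp.sum_single_index (by simp)

theorem pr_single_mul (φ : FA) (p q : List Bool) (u : W) (c : ℚ) (r : FA) :
    pr φ p q (MonoidAlgebra.single u c * r) = c * pr φ (p ++ FreeMonoid.toList u) q r := by
  induction r using MonoidAlgebra.induction_linear with
  | zero => rw [mul_zero, pr_zero, pr_zero, mul_zero]
  | add f g hf hg => rw [mul_add, pr_add, pr_add, hf, hg, mul_add]
  | single v d =>
    rw [MonoidAlgebra.single_mul_single, pr_single, pr_single, FreeMonoid.toList_mul,
      mul_assoc, List.append_assoc, List.append_assoc, List.append_assoc, List.append_assoc]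

theorem pr_mul_single (φ : FA) (p q : List Bool) (u : W) (c : ℚ) (r : FA) :
    pr φ p q (r * MonoidAlgebra.single u c) = c * pr φ p (FreeMonoid.toList u ++ q) r := by
  induction r using MonoidAlgebra.induction_linear with
  | zero => rw [zero_mul, pr_zero, pr_zero, mul_zero]
  | add f g hf hg => rw [add_mul, pr_add, pr_add, hf, hg, mul_add]
  | single v d =>
    rw [MonoidAlgebra.single_mul_single, pr_single, pr_single, FreeMonoid.toList_mul,
      List.append_assoc, List.append_assoc, List.append_assoc]
    ring

theorem exists_E : ∃ E : Ideal FA, E.IsTwoSided ∧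
    ∀ r : FA, r ∈ E ↔ ∀ (s : ℕ) (t : T) (p q : List Bool), pr (phi s t) p q r = 0 := by
  let E : Ideal FA :=
    { carrier := {r | ∀ (s : ℕ) (t : T) (p q : List Bool), pr (phi s t) p q r = 0}
      add_mem' := by
        intro a b ha hb s t p q
        rw [pr_add, ha s t p q, hb s t p q, add_zero]
      zero_mem' := by
        intro s t p q
        exact pr_zero _ _ _
      smul_mem' := by
        intro a r hr s t p q
        rw [smul_eq_mul]
        induction a using MonoidAlgebra.induction_linear with
        | zero => rw [zero_mul, pr_zero]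
        | add f g hf hg => rw [add_mul, pr_add, hf, hg, add_zero]
        | single v d => rw [pr_single_mul, hr s t, mul_zero] }
  refine ⟨E, ⟨?_⟩, fun r => Iff.rfl⟩
  intro r a hr s t p q
  induction a using MonoidAlgebra.induction_linear with
  | zero => rw [mul_zero, pr_zero]
  | add f g hf hg => rw [mul_add, pr_add, hf, hg, add_zero]
  | single v d => rw [pr_mul_single, hr s t, mul_zero]

end Pool.Agent.Helper501.EP
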